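import Pool.Agent.W306.GV.Asym

/-!
# The linear programming exponent is larger than the Gilbert–Varshamov exponent
-/

set_option autoImplicit false

namespace Pool.Agent.W306.GV

open Real Set

/-- `H(p) > 4 p (1 - p)` (natural logarithms) -/
theorem ent_gt {p : ℝ} (h0 : 0 < p) (h1 : p < 1 / 2) : 4 * log 2 * (p * (1 - p)) < binEntropy p := by
  set L := log 2 with hL
  have hL0 : 0 < L := log_pos (by norm_num)
  have hL1 : (0.69 : ℝ) < L := lt_trans (by norm_num) log_two_gt_d9
  set F : ℝ → ℝ := fun p => binEntropy p - 4 * L * (p * (1 - p)) with hF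
  set G : ℝ → ℝ := fun p => log (1 - p) - log p - 4 * L * (1 - 2 * p) with hG
  have hFc : Continuous F := by
    rw [hF]
    fun_prop
  have hFd : ∀ x : ℝ, 0 < x → x < 1 → HasDerivAt F (G x) x := by
    intro x hx0 hx1
    have e1 := hasDerivAt_binEntropy hx0.ne' hx1.ne
    have e2 : HasDerivAt (fun p : ℝ => 4 * L * (p * (1 - p))) (4 * L * (1 - 2 * x)) x := by
      have e3 : HasDerivAt (fun p : ℝ => p * (1 - p)) (1 * (1 - x) + x * (-1)) x := by
        have := (hasDerivAt_id' x).fun_mul ((hasDerivAt_id' x).const_sub 1)
        simpa using this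
      exact (e3.const_mul (4 * L)).congr_deriv (by ring)
    exact e1.fun_sub e2
  have hGd : ∀ x : ℝ, 0 < x → x < 1 → HasDerivAt G (8 * L - 1 / (x * (1 - x))) x := by
    intro x hx0 hx1
    have e1 : HasDerivAt (fun p : ℝ => log (1 - p)) (-1 / (1 - x)) x := by
      have := ((hasDerivAt_id x).const_sub 1).log (by simpa using (sub_pos.2 hx1).ne')
      simpa using this
    have e2 : HasDerivAt (fun p : ℝ => log p) (x⁻¹) x := hasDerivAt_log hx0.ne'
    have e3 : HasDerivAt (fun p : ℝ => 4 * L * (1 - 2 * p)) (4 * L * (-2)) x := by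
      have e4 : HasDerivAt (fun p : ℝ => 1 - 2 * p) (-2) x := by
        have := ((hasDerivAt_id x).const_mul 2).const_sub 1
        simpa using this
      exact e4.const_mul _
    have h3 : x ≠ 0 := hx0.ne'
    have h4 : 1 - x ≠ 0 := (sub_pos.2 hx1).ne'
    refine ((e1.fun_sub e2).fun_sub e3).congr_deriv ?_
    field_simp
    ring
  set s := √(1 - 1 / (2 * L)) with hs
  have hs2 : s ^ 2 = 1 - 1 / (2 * L) := by
    rw [hs, sq_sqrt]
    rw [sub_nonneg, div_le_one (by positivity)]
    linarith
  have hs0 : 0 < s := by
    rw [hs]
    apply sqrt_pos.2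
    rw [sub_pos, div_lt_one (by positivity)]
    linarith
  have hs1 : s < 1 := by
    have : 0 < 1 / (2 * L) := by positivity
    nlinarith
  have hLs : 8 * L * (1 - s ^ 2) = 4 := by
    rw [hs2]
    field_simp
    ring
  set ps := (1 - s) / 2 with hps
  have hps0 : 0 < ps := by rw [hps]; linarith
  have hps1 : ps < 1 / 2 := by rw [hps]; linarith
  have hFhalf : F (1 / 2) = 0 := by
    simp only [hF]
    have : binEntropy (1 / 2) = L := by
      have := binEntropy_two_inv
      rw [one_div]
      exact this
    rw [this]
    ring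
  have hGhalf : G (1 / 2) = 0 := by
    simp only [hG]
    norm_num
  have hF0 : F 0 = 0 := by simp [hF]
  -- the convex part
  have hconv : ∀ x : ℝ, ps ≤ x → x < 1 / 2 → 0 < F x := by
    intro x hx1 hx2
    have hGmono : StrictMonoOn G (Icc ps (1 / 2)) := by
      apply strictMonoOn_of_deriv_pos (convex_Icc _ _)
      · intro y hy
        exact (hGd y (by linarith [hy.1]) (by linarith [hy.2])).continuousAt.continuousWithinAt
      · intro y hy
        rw [interior_Icc] at hy
        rw [(hGd y (by linarith [hy.1]) (by linarith [hy.2])).deriv]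
        have hy0 : 0 < y := by linarith [hy.1]
        have hy1 : y < 1 := by linarith [hy.2]
        have hyy : 0 < y * (1 - y) := mul_pos hy0 (by linarith)
        rw [sub_pos, div_lt_iff₀ hyy]
        have h5 : (1 - 2 * y) ^ 2 < s ^ 2 := by
          have h6 : 1 - 2 * y < s := by
            have := hy.1
            rw [hps] at this
            linarith
          have h7 : 0 < 1 - 2 * y := by linarith [hy.2]
          nlinarith
        nlinarith
    have hGneg : ∀ y ∈ Ico ps (1 / 2), G y < 0 := by
      intro y hy
      have := hGmono ⟨hy.1, hy.2.le⟩ ⟨hps1.le, le_refl _⟩ hy.2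
      rwa [hGhalf] at this
    have hFanti : StrictAntiOn F (Icc ps (1 / 2)) := by
      apply strictAntiOn_of_deriv_neg (convex_Icc _ _) hFc.continuousOn
      intro y hy
      rw [interior_Icc] at hy
      rw [(hFd y (by linarith [hy.1]) (by linarith [hy.2])).deriv]
      exact hGneg y ⟨hy.1.le, hy.2⟩
    have := hFanti ⟨hx1, hx2.le⟩ ⟨hps1.le, le_refl _⟩ hx2
    rwa [hFhalf] at this
  -- the concave part
  have hgoal : 0 < F p := by
    rcases le_or_gt ps p with hle | hlt
    · exact hconv p hle h1
    · have hconc : ConcaveOn ℝ (Icc 0 ps) F := by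
        apply AntitoneOn.concaveOn_of_deriv (convex_Icc _ _) hFc.continuousOn
        · intro y hy
          rw [interior_Icc] at hy
          exact (hFd y hy.1 (by linarith [hy.2])).differentiableAt.differentiableWithinAt
        · rw [interior_Icc]
          have hGanti : AntitoneOn G (Ioo 0 ps) := by
            apply antitoneOn_of_deriv_nonpos (convex_Ioo _ _)
            · intro y hy
              exact (hGd y hy.1 (by linarith [hy.2])).continuousAt.continuousWithinAt
            · intro y hy
              rw [interior_Ioo] at hy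
              exact (hGd y hy.1 (by linarith [hy.2])).differentiableAt.differentiableWithinAt
            · intro y hy
              rw [interior_Ioo] at hy
              rw [(hGd y hy.1 (by linarith [hy.2])).deriv]
              have hyy : 0 < y * (1 - y) := mul_pos hy.1 (by linarith [hy.2])
              rw [sub_nonpos, le_div_iff₀ hyy]
              have h5 : s ^ 2 ≤ (1 - 2 * y) ^ 2 := by
                have h6 : s ≤ 1 - 2 * y := by
                  have := hy.2
                  rw [hps] at this
                  linarith
                nlinarith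
              nlinarith
          intro a ha b hb hab
          rw [(hFd a ha.1 (by linarith [ha.2])).deriv, (hFd b hb.1 (by linarith [hb.2])).deriv]
          exact hGanti ha hb hab
      have hps' : 0 < F ps := hconv ps le_rfl hps1
      have h8 := hconc.2 (show (0 : ℝ) ∈ Icc 0 ps from ⟨le_rfl, hps0.le⟩)
        (show ps ∈ Icc 0 ps from ⟨hps0.le, le_rfl⟩)
        (show 0 ≤ 1 - p / ps by
          rw [sub_nonneg, div_le_one hps0]
          exact hlt.le) (show 0 ≤ p / ps by positivity) (by ring)
      simp only [smul_eq_mul, mul_zero, zero_add, hF0] at h8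
      rw [div_mul_cancel₀ p hps0.ne'] at h8
      have h9 : 0 < p / ps * F ps := by positivity
      linarith
  simp only [hF] at hgoal
  linarith

/-- the constant `cc` is positive -/
theorem cc_pos {δ : ℝ} (h0 : 0 < δ) (h1 : δ < 1 / 2) : 0 < cc δ := by
  have hw0 := w1_pos h1
  have hw1 := w1_lt h0 h1
  have e1 := ent_gt h0 h1
  have e2 := ent_gt hw0 hw1
  have e3 : w1 δ * (1 - w1 δ) = 1 / 4 - δ * (1 - δ) := by
    unfold w1
    have : √(δ * (1 - δ)) ^ 2 = δ * (1 - δ) := sq_sqrt (by nlinarith)
    nlinarith
  rw [e3] at e2
  unfold cc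
  linarith

end Pool.Agent.W306.GV
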