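import Pool.Agent.W306.GV.Count
import Pool.Agent.H517R2.RS.MODE
import Pool.Agent.H517R2.RS.BINE
import Pool.Agent.H517R2.RS.CHU

/-!
# Exponents
-/

set_option autoImplicit false

namespace Pool.Agent.W306.GV

open Finset Filter Topology

lemma log_small {ε : ℝ} (hε : 0 < ε) : ∀ᶠ n : ℕ in atTop, Real.log ((n : ℝ) + 1) ≤ ε * n := by
  have h := Real.isLittleO_log_id_atTop.comp_tendsto
    (tendsto_natCast_atTop_atTop (R := ℝ) |>.atTop_add (tendsto_const_nhds (x := (1 : ℝ))))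
  have h2 := h.bound (half_pos hε)
  filter_upwards [h2, eventually_ge_atTop 1] with n hn h1
  simp only [Function.comp, id] at hn
  have hnR : (1 : ℝ) ≤ n := by exact_mod_cast h1
  rw [Real.norm_of_nonneg (Real.log_nonneg (by linarith)), Real.norm_of_nonneg (by linarith)] at hn
  nlinarith

lemma choose_lower (k : ℕ → ℕ) (x : ℝ) (hx0 : 0 < x) (hx1 : x < 1)
    (hk : Tendsto (fun n : ℕ => (k n : ℝ) / n) atTop (𝓝 x)) {ε : ℝ} (hε : 0 < ε) :
    ∀ᶠ n : ℕ in atTop, Real.exp ((Real.binEntropy x - ε) * n) ≤ (n.choose (k n) : ℝ) := by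
  have hc : Tendsto (fun n : ℕ => Real.binEntropy ((k n : ℝ) / n)) atTop (𝓝 (Real.binEntropy x)) :=
    (Real.binEntropy_continuous.tendsto x).comp hk
  have h1 := hc.eventually (eventually_gt_nhds (show Real.binEntropy x - ε / 2 < Real.binEntropy x by linarith))
  have h2 := log_small (half_pos hε)
  have h3 := hk.eventually (eventually_gt_nhds hx0)
  have h4 := hk.eventually (eventually_lt_nhds hx1)
  filter_upwards [h1, h2, h3, h4, eventually_ge_atTop 1] with n g1 g2 g3 g4 g5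
  have hn : (0 : ℝ) < n := by exact_mod_cast g5
  have k1 : 1 ≤ k n := by
    by_contra hcon
    have : k n = 0 := by omega
    rw [this] at g3
    simp at g3
  have k2 : k n ≤ n := by
    rw [div_lt_one hn] at g4
    exact_mod_cast g4.le
  have hb := Pool.Agent.H517R2.RS.t_BINE Pool.Agent.H517R2.RS.t_MODE n (k n) k1 k2
  have hpos : (0 : ℝ) < n.choose (k n) := by exact_mod_cast Nat.choose_pos k2
  rw [← Real.le_log_iff_exp_le hpos]
  have : (Real.binEntropy x - ε / 2) * n ≤ n * Real.binEntropy ((k n : ℝ) / n) := by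
    rw [mul_comm (n : ℝ)]
    exact mul_le_mul_of_nonneg_right g1.le hn.le
  linarith

lemma choose_upper {τ : ℝ} (h0 : 0 < τ) (h1 : τ < 1 / 2) (n t : ℕ) (h : (t : ℝ) ≤ τ * n) :
    (n.choose t : ℝ) ≤ Real.exp (Real.binEntropy τ * n) := by
  have hc := Pool.Agent.H517R2.RS.t_CHU τ h0 h1 n t h
  rcases Nat.lt_or_ge n t with h2 | h2
  · rw [Nat.choose_eq_zero_of_lt h2, Nat.cast_zero]
    exact (Real.exp_pos _).le
  · have hpos : (0 : ℝ) < n.choose t := by exact_mod_cast Nat.choose_pos h2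
    rw [← Real.log_le_iff_le_exp hpos, mul_comm]
    exact hc

/-- the even distance used -/
noncomputable def ii (δ : ℝ) (n : ℕ) : ℕ := 2 * ((⌈δ * n⌉₊ - 1) / 2)

lemma ii_bounds {δ : ℝ} (h0 : 0 < δ) {n : ℕ} (hn : 1 ≤ n) :
    ii δ n < ⌈δ * n⌉₊ ∧ (ii δ n : ℝ) ≤ δ * n ∧ δ * n - 2 ≤ ii δ n := by
  have hnR : (0 : ℝ) < n := by exact_mod_cast hn
  have hpos : 0 < ⌈δ * n⌉₊ := Nat.ceil_pos.2 (by positivity)
  have h1 : ii δ n < ⌈δ * n⌉₊ := by unfold ii; omega
  have h2 : ⌈δ * n⌉₊ ≤ ii δ n + 2 := by unfold ii; omega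
  refine ⟨h1, (Nat.lt_ceil.1 h1).le, ?_⟩
  have h3 : δ * n ≤ ⌈δ * n⌉₊ := Nat.le_ceil _
  have h4 : (⌈δ * n⌉₊ : ℝ) ≤ ii δ n + 2 := by exact_mod_cast h2
  linarith

lemma ii_tendsto {δ : ℝ} (h0 : 0 < δ) : Tendsto (fun n : ℕ => (ii δ n : ℝ) / n) atTop (𝓝 δ) := by
  have h1 : Tendsto (fun n : ℕ => δ - 2 / (n : ℝ)) atTop (𝓝 (δ - 0)) :=
    tendsto_const_nhds.sub (tendsto_const_div_atTop_nhds_zero_nat 2)
  rw [sub_zero] at h1
  refine tendsto_of_tendsto_of_tendsto_of_le_of_le' h1 tendsto_const_nhds ?_ ?_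
  · filter_upwards [eventually_ge_atTop 1] with n hn
    have hnR : (0 : ℝ) < n := by exact_mod_cast hn
    have := (ii_bounds h0 hn).2.2
    rw [le_div_iff₀ hnR]
    have e : (δ - 2 / (n : ℝ)) * n = δ * n - 2 := by field_simp
    linarith
  · filter_upwards [eventually_ge_atTop 1] with n hn
    have hnR : (0 : ℝ) < n := by exact_mod_cast hn
    rw [div_le_iff₀ hnR]
    exact (ii_bounds h0 hn).2.1

/-- the first root exponent -/
noncomputable def w1 (δ : ℝ) : ℝ := 1 / 2 - √(δ * (1 - δ))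

lemma w1_pos {δ : ℝ} (h1 : δ < 1 / 2) : 0 < w1 δ := by
  unfold w1
  have : √(δ * (1 - δ)) < 1 / 2 := by
    rw [Real.sqrt_lt' (by norm_num)]
    nlinarith [sq_nonneg (δ - 1 / 2), mul_pos (sub_pos.2 h1) (sub_pos.2 h1)]
  linarith

lemma w1_lt {δ : ℝ} (h0 : 0 < δ) (h1 : δ < 1 / 2) : w1 δ < 1 / 2 := by
  unfold w1
  have : 0 < √(δ * (1 - δ)) := Real.sqrt_pos.2 (by nlinarith)
  linarith

lemma floor_tendsto {τ : ℝ} (h0 : 0 < τ) : Tendsto (fun n : ℕ => (⌊τ * n⌋₊ : ℝ) / n) atTop (𝓝 τ) := by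
  have h := (tendsto_nat_floor_mul_div_atTop (R := ℝ) h0.le).comp (tendsto_natCast_atTop_atTop (R := ℝ))
  exact h

/-- the constant `c δ`, natural logarithms: half the distance between the exponents -/
noncomputable def cc (δ : ℝ) : ℝ := (Real.binEntropy δ + Real.binEntropy (w1 δ) - Real.log 2) / 2

/-- **Count of the codes**, asymptotic form. -/
theorem count_asym {δ ε : ℝ} (h0 : 0 < δ) (h1 : δ < 1 / 2) (hε : 0 < ε) :
    ∀ᶠ n : ℕ in atTop, ∃ s0 q : ℕ, 1 ≤ s0 ∧
      (s0 : ℝ) ≤ Real.exp ((Real.log 2 - cc δ + ε) * n) ∧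
      (q : ℝ) ≤ Real.exp ((Real.log 2 - Real.binEntropy δ + ε) * n) ∧
      ∀ M : ℕ, 1 ≤ M → ((codes n ⌈δ * n⌉₊ M).card : ℝ) ≤
        ((2 : ℝ) ^ n + 1) ^ q * (Real.exp 1 * s0 / M) ^ M := by
  have hw0 := w1_pos h1
  have hw1 := w1_lt h0 h1
  -- choice of τ
  obtain ⟨τ, hτ0, hτ1, hτh⟩ : ∃ τ : ℝ, 0 < τ ∧ τ < w1 δ ∧
      Real.binEntropy (w1 δ) - ε / 4 < Real.binEntropy τ := by
    have hc := (Real.binEntropy_continuous.tendsto (w1 δ)).eventually
      (eventually_gt_nhds (show Real.binEntropy (w1 δ) - ε / 4 < Real.binEntropy (w1 δ) by linarith))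
    have hc2 : ∀ᶠ x in 𝓝[<] (w1 δ), Real.binEntropy (w1 δ) - ε / 4 < Real.binEntropy x :=
      hc.filter_mono nhdsWithin_le_nhds
    have hc3 : ∀ᶠ x in 𝓝[<] (w1 δ), x ∈ Set.Ioo 0 (w1 δ) := Ioo_mem_nhdsLT hw0
    obtain ⟨x, hx1, hx2⟩ := (hc2.and hc3).exists
    exact ⟨x, hx2.1, hx2.2, hx1⟩
  set η : ℝ := w1 δ - τ with hη
  have hη0 : 0 < η := by linarith
  have c1 := choose_lower (ii δ) δ h0 (by linarith) (ii_tendsto h0) (show 0 < ε / 4 by positivity)
  have c2 := choose_lower (fun n => ⌊τ * n⌋₊) τ hτ0 (by linarith) (floor_tendsto hτ0)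
    (show 0 < ε / 4 by positivity)
  have c3 := log_small (show 0 < ε / 8 by positivity)
  have c4 : ∀ᶠ n : ℕ in atTop, δ / η ^ 2 ≤ (n : ℝ) :=
    tendsto_natCast_atTop_atTop.eventually_ge_atTop _
  have c5 : ∀ᶠ n : ℕ in atTop, 4 / δ ≤ (n : ℝ) :=
    tendsto_natCast_atTop_atTop.eventually_ge_atTop _
  have c6 : ∀ᶠ n : ℕ in atTop, 8 * Real.log 4 / ε ≤ (n : ℝ) :=
    tendsto_natCast_atTop_atTop.eventually_ge_atTop _
  filter_upwards [c1, c2, c3, c4, c5, c6, eventually_ge_atTop 1] with n g1 g2 g3 g4 g5 g6 g7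
  have hn : (0 : ℝ) < n := by exact_mod_cast g7
  have hn1 : (1 : ℝ) ≤ n := by exact_mod_cast g7
  obtain ⟨i1, i2, i3⟩ := ii_bounds h0 g7
  set i := ii δ n with hi
  set t := ⌊τ * n⌋₊ with ht
  have hi1 : 1 ≤ i := by
    rw [div_le_iff₀ h0] at g5
    have : (1 : ℝ) < i := by linarith
    exact_mod_cast this.le
  have hin : 2 * i ≤ n + 1 := by
    have : 2 * (i : ℝ) ≤ n + 1 := by nlinarith
    exact_mod_cast this
  have hev : Even i := ⟨(⌈δ * n⌉₊ - 1) / 2, by rw [hi]; unfold ii; ring⟩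
  have htn : t ≤ n := by
    have h2 : (t : ℝ) ≤ τ * n := Nat.floor_le (by positivity)
    have h3 : (t : ℝ) ≤ n := by nlinarith
    exact_mod_cast h3
  have hw : 2 * √((i : ℝ) * (n - i + 1)) ≤ (n : ℝ) - 2 * t := by
    have h2 : (t : ℝ) ≤ τ * n := Nat.floor_le (by positivity)
    have hs0 : 0 ≤ √(δ * (1 - δ)) := Real.sqrt_nonneg _
    have h3 : √((i : ℝ) * (n - i + 1)) ≤ (√(δ * (1 - δ)) + η) * n := by
      rw [Real.sqrt_le_left (by positivity)]
      have hss : √(δ * (1 - δ)) ^ 2 = δ * (1 - δ) := Real.sq_sqrt (by nlinarith)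
      have h5 : (i : ℝ) * (n - i + 1) ≤ δ * n * (n - δ * n + 1) := by
        have h6 : 2 * (i : ℝ) ≤ n + 1 := by exact_mod_cast hin
        nlinarith [mul_nonneg (sub_nonneg.2 i2) (show (0 : ℝ) ≤ n + 1 - i - δ * n by nlinarith)]
      have h7 : δ * n ≤ η ^ 2 * n ^ 2 := by
        rw [div_le_iff₀ (by positivity)] at g4
        nlinarith
      have h8 : 0 ≤ 2 * √(δ * (1 - δ)) * η * n ^ 2 := by positivity
      nlinarith
    have h9 : w1 δ = 1 / 2 - √(δ * (1 - δ)) := rfl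
    have h10 : √(δ * (1 - δ)) + η = 1 / 2 - τ := by rw [hη, h9]; ring
    rw [h10] at h3
    nlinarith
  have hbi : (0 : ℝ) < n.choose i := by exact_mod_cast Nat.choose_pos (by omega)
  have hbt : (0 : ℝ) < n.choose t := by exact_mod_cast Nat.choose_pos htn
  set X : ℝ := 2 * 2 ^ n * √(2 ^ n * n.choose i / n.choose t) / n.choose i with hX
  have hX0 : 0 < X := by positivity
  set Y : ℝ := 2 * 2 ^ n * (n : ℝ) / n.choose i with hY
  have hY0 : 0 < Y := by positivity
  have hlog4 : Real.log 4 ≤ ε / 8 * n := by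
    rw [div_le_iff₀ hε] at g6
    linarith
  have h2n : (2 : ℝ) ^ n = Real.exp (Real.log 2 * n) := by
    rw [mul_comm, Real.exp_nat_mul, Real.exp_log (by norm_num)]
  have hexp0 : ∀ {a b : ℝ}, a ≤ b → Real.exp a ≤ Real.exp b := fun h => Real.exp_le_exp.2 h
  have hentpos : 0 ≤ Real.log 2 - Real.binEntropy δ := by linarith [Real.binEntropy_le_log_two (p := δ)]
  have hccpos : 0 ≤ Real.log 2 - cc δ := by
    unfold cc
    linarith [Real.binEntropy_le_log_two (p := δ), Real.binEntropy_le_log_two (p := w1 δ),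
      Real.log_pos (show (1 : ℝ) < 2 by norm_num)]
  have key : ∀ {Z E : ℝ}, 0 ≤ E → Z ≤ Real.exp ((E + ε * (3 / 4)) * n) → Z + 2 ≤ Real.exp ((E + ε) * n) := by
    intro Z E hE hZ
    have h4 : (4 : ℝ) ≤ Real.exp (ε / 8 * n) := by
      rw [← Real.log_le_iff_le_exp (by norm_num)]
      exact hlog4
    have e1 : Real.exp ((E + ε) * n) = Real.exp ((E + ε * (3 / 4)) * n) * (Real.exp (ε / 8 * n) * Real.exp (ε / 8 * n)) := by
      rw [← Real.exp_add, ← Real.exp_add]
      congr 1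
      ring
    have e2 : (1 : ℝ) ≤ Real.exp ((E + ε * (3 / 4)) * n) := Real.one_le_exp (by positivity)
    rw [e1]
    have h16 : (16 : ℝ) ≤ Real.exp (ε / 8 * n) * Real.exp (ε / 8 * n) := by nlinarith
    have h17 := mul_le_mul_of_nonneg_left h16 (Real.exp_pos ((E + ε * (3 / 4)) * n)).le
    linarith
  refine ⟨⌈X⌉₊ + 1, ⌈Y⌉₊, Nat.succ_pos _, ?_, ?_, ?_⟩
  · have hXle : X ≤ Real.exp ((Real.log 2 - cc δ + ε * (3 / 4)) * n) := by
      have e1 : X ^ 2 = 4 * 2 ^ n * 2 ^ n * 2 ^ n / (n.choose i * n.choose t) := by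
        rw [hX, div_pow, mul_pow, Real.sq_sqrt (by positivity)]
        field_simp
        ring
      have e2 : X ^ 2 ≤ Real.exp ((Real.log 2 - cc δ + ε * (3 / 4)) * n) ^ 2 := by
        rw [e1, div_le_iff₀ (by positivity)]
        have h5 : Real.exp ((Real.binEntropy δ - ε / 4) * n) * Real.exp ((Real.binEntropy τ - ε / 4) * n) ≤
            (n.choose i : ℝ) * n.choose t := mul_le_mul g1 g2 (Real.exp_pos _).le hbi.le
        refine le_trans ?_ (mul_le_mul_of_nonneg_left h5 (by positivity))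
        rw [h2n]
        have h4 : (4 : ℝ) ≤ Real.exp (ε / 8 * n) := by
          rw [← Real.log_le_iff_le_exp (by norm_num)]
          exact hlog4
        calc (4 : ℝ) * Real.exp (Real.log 2 * n) * Real.exp (Real.log 2 * n) * Real.exp (Real.log 2 * n)
            ≤ Real.exp (ε / 8 * n) * Real.exp (Real.log 2 * n) * Real.exp (Real.log 2 * n) * Real.exp (Real.log 2 * n) := by
              gcongr
          _ = Real.exp (ε / 8 * n + Real.log 2 * n + Real.log 2 * n + Real.log 2 * n) := by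
              rw [← Real.exp_add, ← Real.exp_add, ← Real.exp_add]
          _ ≤ _ := by
              rw [← Real.exp_nat_mul, ← Real.exp_add, ← Real.exp_add]
              apply hexp0
              unfold cc
              push_cast
              nlinarith
      exact (pow_le_pow_iff_left₀ hX0.le (Real.exp_pos _).le (by norm_num)).1 e2
    have h6 := key hccpos hXle
    have h7 := Nat.ceil_lt_add_one hX0.le
    push_cast
    linarith
  · have hYle : Y ≤ Real.exp ((Real.log 2 - Real.binEntropy δ + ε * (3 / 4)) * n) := by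
      rw [hY, div_le_iff₀ hbi]
      refine le_trans ?_ (mul_le_mul_of_nonneg_left g1 (Real.exp_pos _).le)
      have h4 : (4 : ℝ) ≤ Real.exp (ε / 8 * n) := by
        rw [← Real.log_le_iff_le_exp (by norm_num)]
        exact hlog4
      have h5 : (n : ℝ) ≤ Real.exp (ε / 8 * n) := by
        have : (n : ℝ) + 1 ≤ Real.exp (ε / 8 * n) := by
          rw [← Real.log_le_iff_le_exp (by positivity)]
          exact g3
        linarith
      rw [h2n]
      calc 2 * Real.exp (Real.log 2 * n) * (n : ℝ)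
          ≤ Real.exp (ε / 8 * n) * Real.exp (Real.log 2 * n) * Real.exp (ε / 8 * n) := by
            gcongr
            linarith
        _ = Real.exp (ε / 8 * n + Real.log 2 * n + ε / 8 * n) := by
            rw [← Real.exp_add, ← Real.exp_add]
        _ ≤ _ := by
            rw [← Real.exp_add]
            apply hexp0
            nlinarith
    have h6 := key hentpos hYle
    have h7 := Nat.ceil_lt_add_one hY0.le
    linarith
  · intro M hM
    refine count_le hi1 i1 hin hev htn hw (⌈X⌉₊ + 1) ⌈Y⌉₊ (Nat.succ_pos _) ?_ ?_ M hM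
    · have h8 : X ≤ ((⌈X⌉₊ + 1 : ℕ) : ℝ) := by
        push_cast
        linarith [Nat.le_ceil X]
      rw [hX, div_le_iff₀ hbi] at h8
      linarith
    · have h8 : Y ≤ ((⌈Y⌉₊ : ℕ) : ℝ) := Nat.le_ceil Y
      rw [hY, div_le_iff₀ hbi] at h8
      linarith

end Pool.Agent.W306.GV
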