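import Pool.Agent.W306.GV.Kraw
import Pool.Agent.H768R3.AZ_KW

/-!
# The number of binary codes with a given number of words: Kleitman–Winston
-/

set_option autoImplicit false

namespace Pool.Agent.W306.GV

open Finset

/-- a set of words with minimum distance at least `d` -/
def IsCode {n : ℕ} (d : ℕ) (C : Finset (Fin n → Bool)) : Prop :=
  ∀ x ∈ C, ∀ y ∈ C, x ≠ y → d ≤ hammingDist x y

instance {n : ℕ} (d : ℕ) (C : Finset (Fin n → Bool)) : Decidable (IsCode d C) := by
  unfold IsCode; infer_instance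

/-- the codes with `M` words of length `n` and minimum distance at least `d` -/
def codes (n d M : ℕ) : Finset (Finset (Fin n → Bool)) :=
  (powersetCard M (univ : Finset (Fin n → Bool))).filter (IsCode d)

lemma pairs_eq_sum {n : ℕ} (i : ℕ) (U : Finset (Fin n → Bool)) :
    pairs i U = ∑ x ∈ U, (U.filter (fun y => hammingDist x y = i)).card := by
  unfold pairs
  rw [Finset.card_filter, Finset.sum_product]
  refine Finset.sum_congr rfl fun x _ => ?_
  rw [Finset.card_filter]

/-- Sum of binomial coefficients. -/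
lemma sum_choose_le (N q : ℕ) : ∑ k ∈ range (q + 1), N.choose k ≤ (N + 1) ^ q := by
  rw [add_pow]
  refine Finset.sum_le_sum fun k hk => ?_
  have hk' : k ≤ q := by
    have := Finset.mem_range.1 hk
    omega
  rw [one_pow, mul_one]
  calc N.choose k ≤ N ^ k := Nat.choose_le_pow _ _
    _ = N ^ k * 1 := (mul_one _).symm
    _ ≤ N ^ k * q.choose k := Nat.mul_le_mul_left _ (Nat.choose_pos hk')

/-- a word with many words at distance `i` -/
lemma exists_deg {n i t : ℕ} (hi : 2 * i ≤ n + 1) (hev : Even i)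
    (ht : t ≤ n) (hw : 2 * √((i : ℝ) * (n - i + 1)) ≤ (n : ℝ) - 2 * t) (s0 : ℕ)
    (hs : 2 * 2 ^ n * √(2 ^ n * n.choose i / n.choose t) ≤ n.choose i * (s0 : ℝ))
    (U : Finset (Fin n → Bool)) (hU : s0 < U.card) :
    ∃ v ∈ U, (n.choose i : ℝ) / (2 * 2 ^ n) * U.card ≤
      ((U.filter (fun y => hammingDist v y = i)).card : ℝ) := by
  have hsup := supersat hi hev ht hw U
  set κ : ℝ := √(2 ^ n * n.choose i / n.choose t) with hκ
  have hκ0 : 0 ≤ κ := Real.sqrt_nonneg _
  have hUs : (s0 : ℝ) ≤ U.card := by exact_mod_cast hU.le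
  have hU0 : (0 : ℝ) < U.card := by
    have : 0 < U.card := by omega
    exact_mod_cast this
  have hc0 : (0 : ℝ) ≤ n.choose i := by positivity
  have h1 : 2 * 2 ^ n * κ ≤ n.choose i * (U.card : ℝ) :=
    hs.trans (mul_le_mul_of_nonneg_left hUs hc0)
  have h2 : 2 ^ n * (U.card : ℝ) * κ ≤ n.choose i * (U.card : ℝ) ^ 2 / 2 := by
    have := mul_le_mul_of_nonneg_right h1 hU0.le
    nlinarith
  have h3 : (n.choose i : ℝ) * (U.card : ℝ) ^ 2 ≤ 2 * 2 ^ n * pairs i U := by nlinarith
  by_contra hcon
  push Not at hcon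
  have h4 : (pairs i U : ℝ) < ∑ _v ∈ U, (n.choose i : ℝ) / (2 * 2 ^ n) * U.card := by
    rw [pairs_eq_sum]
    push_cast
    refine Finset.sum_lt_sum_of_nonempty ?_ fun v hv => hcon v hv
    rw [← Finset.card_pos]
    omega
  rw [Finset.sum_const, nsmul_eq_mul] at h4
  have h5 : (0 : ℝ) < 2 * 2 ^ n := by positivity
  have h6 := mul_lt_mul_of_pos_left h4 h5
  have h7 : (2 : ℝ) * 2 ^ n * ((U.card : ℝ) * ((n.choose i : ℝ) / (2 * 2 ^ n) * U.card)) =
      n.choose i * (U.card : ℝ) ^ 2 := by
    field_simp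
  rw [h7] at h6
  linarith

/-- container count -/
theorem count_le {n i t d : ℕ} (hi1 : 1 ≤ i) (hid : i < d) (hi : 2 * i ≤ n + 1) (hev : Even i)
    (ht : t ≤ n) (hw : 2 * √((i : ℝ) * (n - i + 1)) ≤ (n : ℝ) - 2 * t) (s0 q : ℕ)
    (hs1 : 1 ≤ s0)
    (hs : 2 * 2 ^ n * √(2 ^ n * n.choose i / n.choose t) ≤ n.choose i * (s0 : ℝ))
    (hq : 2 * 2 ^ n * (n : ℝ) ≤ n.choose i * (q : ℝ)) (M : ℕ) (hM : 1 ≤ M) :
    ((codes n d M).card : ℝ) ≤ ((2 : ℝ) ^ n + 1) ^ q * (Real.exp 1 * s0 / M) ^ M := by
  have hMR : (0 : ℝ) < M := by exact_mod_cast hM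
  have hsR : (0 : ℝ) < s0 := by exact_mod_cast hs1
  have hin : i ≤ n := by omega
  have hcpos : (0 : ℝ) < n.choose i := by exact_mod_cast Nat.choose_pos hin
  have hrhs : 0 ≤ ((2 : ℝ) ^ n + 1) ^ q * (Real.exp 1 * s0 / M) ^ M := by positivity
  have hdeg := fun U hU => exists_deg hi hev ht hw s0 hs U hU
  set β : ℝ := (n.choose i : ℝ) / (2 * 2 ^ n) with hβ
  have hβ0 : 0 < β := by positivity
  have hβ1 : β ≤ 1 := by
    rw [hβ, div_le_one (by positivity)]
    have h1 : n.choose i ≤ 2 ^ n := Nat.choose_le_two_pow _ _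
    have h2 : (n.choose i : ℝ) ≤ 2 ^ n := by exact_mod_cast h1
    have h3 : (0 : ℝ) < 2 ^ n := by positivity
    linarith
  rcases lt_or_ge s0 M with hlt | hge
  · -- no code is that large
    have : codes n d M = ∅ := by
      rw [Finset.eq_empty_iff_forall_notMem]
      intro C hC
      unfold codes at hC
      rw [Finset.mem_filter, Finset.mem_powersetCard] at hC
      obtain ⟨v, hv, hd⟩ := hdeg C (by omega)
      have h1 : (0 : ℝ) < ((C.filter (fun y => hammingDist v y = i)).card : ℝ) := by
        refine lt_of_lt_of_le ?_ hd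
        rw [hC.1.2]
        positivity
      have h2 : 0 < (C.filter (fun y => hammingDist v y = i)).card := by exact_mod_cast h1
      obtain ⟨y, hy⟩ := Finset.card_pos.1 h2
      rw [Finset.mem_filter] at hy
      have h3 : v ≠ y := by
        rintro rfl
        rw [hammingDist_self] at hy
        omega
      have := hC.2 v hv y hy.1 h3
      omega
    rw [this, Finset.card_empty, Nat.cast_zero]
    exact hrhs
  · have hMs : (M : ℝ) ≤ s0 := by exact_mod_cast hge
    set lam : ℝ := M / s0 with hlam
    have hl0 : 0 < lam := by positivity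
    have hl1 : lam ≤ 1 := by rw [hlam, div_le_one hsR]; exact hMs
    have hN : ((univ : Finset (Fin n → Bool)).card : ℝ) = 2 ^ n := by
      rw [Finset.card_univ]
      simp
    have hcontr : ((univ : Finset (Fin n → Bool)).card : ℝ) * (1 - β) ^ q ≤ s0 := by
      rw [hN]
      have h1 : (1 - β) ^ q ≤ Real.exp (-(n : ℝ)) := by
        calc (1 - β) ^ q ≤ (Real.exp (-β)) ^ q :=
              pow_le_pow_left₀ (by linarith) (by linarith [Real.add_one_le_exp (-β)]) _
          _ = Real.exp (q * (-β)) := by rw [← Real.exp_nat_mul]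
          _ ≤ Real.exp (-(n : ℝ)) := by
              apply Real.exp_le_exp.2
              have h5 : (n : ℝ) ≤ q * β := by
                rw [hβ, mul_div_assoc', le_div_iff₀ (by positivity)]
                linarith
              linarith
      have h2 : (2 : ℝ) ^ n ≤ Real.exp n := by
        have h3 : (2 : ℝ) ≤ Real.exp 1 := by
          have := Real.add_one_le_exp (1 : ℝ)
          linarith
        calc (2 : ℝ) ^ n ≤ (Real.exp 1) ^ n := pow_le_pow_left₀ (by norm_num) h3 _
          _ = Real.exp n := by rw [← Real.exp_nat_mul, mul_one]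
      calc (2 : ℝ) ^ n * (1 - β) ^ q ≤ Real.exp n * Real.exp (-(n : ℝ)) :=
            mul_le_mul h2 h1 (pow_nonneg (by linarith) _) (Real.exp_pos _).le
        _ = 1 := by rw [← Real.exp_add, add_neg_cancel, Real.exp_zero]
        _ ≤ s0 := by exact_mod_cast hs1
    have hkw := H972R5.AZ.taskKW (Fin n → Bool) (fun x y => hammingDist x y = i) s0 β lam
      (fun x y h => by rw [hammingDist_comm]; exact h) hl0.le hβ0 hβ1
      (fun A hA => by
        obtain ⟨v, hv, hd⟩ := hdeg A hA
        refine ⟨v, hv, ?_⟩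
        refine hd.trans ?_
        have : A.filter (fun y => hammingDist v y = i) ⊆ A.filter (fun w => w ≠ v ∧ hammingDist v w = i) := by
          intro y hy
          rw [Finset.mem_filter] at hy ⊢
          refine ⟨hy.1, ?_, hy.2⟩
          rintro rfl
          rw [hammingDist_self] at hy
          omega
        exact_mod_cast Finset.card_le_card this)
      q univ hcontr
    have hleft : ((codes n d M).card : ℝ) * lam ^ M ≤
        ∑ I ∈ (univ : Finset (Fin n → Bool)).powerset.filter
          (fun I => ∀ x ∈ I, ∀ y ∈ I, x ≠ y → ¬ hammingDist x y = i), lam ^ I.card := by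
      rw [← nsmul_eq_mul, ← Finset.sum_const]
      calc ∑ _x ∈ codes n d M, lam ^ M = ∑ C ∈ codes n d M, lam ^ C.card := by
            refine Finset.sum_congr rfl fun C hC => ?_
            unfold codes at hC
            rw [Finset.mem_filter, Finset.mem_powersetCard] at hC
            rw [hC.1.2]
        _ ≤ _ := by
            refine Finset.sum_le_sum_of_subset_of_nonneg ?_ (fun _ _ _ => pow_nonneg hl0.le _)
            intro C hC
            unfold codes at hC
            rw [Finset.mem_filter, Finset.mem_powersetCard] at hC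
            rw [Finset.mem_filter, Finset.mem_powerset]
            refine ⟨Finset.subset_univ _, fun x hx y hy hxy he => ?_⟩
            have := hC.2 x hx y hy hxy
            omega
    have hsum : ∑ k ∈ range (q + 1), (((univ : Finset (Fin n → Bool)).card.choose k : ℕ) : ℝ) * lam ^ k
        ≤ ((2 : ℝ) ^ n + 1) ^ q := by
      calc ∑ k ∈ range (q + 1), (((univ : Finset (Fin n → Bool)).card.choose k : ℕ) : ℝ) * lam ^ k
          ≤ ∑ k ∈ range (q + 1), (((univ : Finset (Fin n → Bool)).card.choose k : ℕ) : ℝ) := by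
            refine Finset.sum_le_sum fun k _ => ?_
            refine mul_le_of_le_one_right (by positivity) (pow_le_one₀ hl0.le hl1)
        _ ≤ (((univ : Finset (Fin n → Bool)).card : ℝ) + 1) ^ q := by
            exact_mod_cast sum_choose_le _ _
        _ = _ := by rw [hN]
    have hexp : (1 + lam) ^ s0 ≤ Real.exp 1 ^ M := by
      calc (1 + lam) ^ s0 ≤ (Real.exp lam) ^ s0 :=
            pow_le_pow_left₀ (by linarith) (by linarith [Real.add_one_le_exp lam]) _
        _ = Real.exp (s0 * lam) := by rw [← Real.exp_nat_mul]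
        _ = Real.exp 1 ^ M := by
            rw [← Real.exp_nat_mul, hlam]
            congr 1
            field_simp
    have hall : ((codes n d M).card : ℝ) * lam ^ M ≤ ((2 : ℝ) ^ n + 1) ^ q * Real.exp 1 ^ M :=
      hleft.trans (hkw.trans (mul_le_mul hsum hexp (by positivity) (by positivity)))
    have hlM : 0 < lam ^ M := pow_pos hl0 _
    have hgoal : ((2 : ℝ) ^ n + 1) ^ q * (Real.exp 1 * s0 / M) ^ M =
        ((2 : ℝ) ^ n + 1) ^ q * Real.exp 1 ^ M / lam ^ M := by
      rw [hlam, mul_div_assoc, mul_pow, div_pow, div_pow]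
      field_simp
    rw [hgoal, le_div_iff₀ hlM]
    exact hall

end Pool.Agent.W306.GV
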