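import Mathlib

/-!
# Supersaturation in the Hamming cube

Every set `U` of words of length `n` has at least about `|U|^2 C(n,i) / 2^n` ordered pairs at distance
exactly `i` (for `i` even), as soon as `|U|` is larger than `2^n √(2^n / (C(n,i) C(n,t)))`, where
`n - 2t ≥ √(i(n-i+1)) + √((i-1)(n-i+2))` or so. Proof: Krawtchouk polynomials.
-/

set_option autoImplicit false

namespace Pool.Agent.W306.GV

open Finset Polynomial

/-- weight of a word -/
def wt {n : ℕ} (x : Fin n → Bool) : ℕ := (univ.filter (fun j => x j = true)).card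

/-- the characters of the cube -/
def chi {n : ℕ} (s x : Fin n → Bool) : ℝ := ∏ j, (if s j && x j then (-1 : ℝ) else 1)

/-- sum of two words -/
def add {n : ℕ} (x y : Fin n → Bool) : Fin n → Bool := fun j => xor (x j) (y j)

lemma chi_add {n : ℕ} (s x y : Fin n → Bool) : chi s (add x y) = chi s x * chi s y := by
  unfold chi add
  rw [← Finset.prod_mul_distrib]
  refine Finset.prod_congr rfl fun j _ => ?_
  cases s j <;> cases x j <;> cases y j <;> simp

lemma chi_comm {n : ℕ} (s x : Fin n → Bool) : chi s x = chi x s := by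
  unfold chi
  refine Finset.prod_congr rfl fun j _ => ?_
  rw [Bool.and_comm]

/-- the all false word -/
def zero {n : ℕ} : Fin n → Bool := fun _ => false

lemma chi_zero {n : ℕ} (s : Fin n → Bool) : chi s zero = 1 := by
  unfold chi zero
  simp

lemma sum_chi {n : ℕ} (x : Fin n → Bool) : ∑ s, chi s x = if x = zero then (2 : ℝ) ^ n else 0 := by
  have h : ∑ s : Fin n → Bool, chi s x = ∏ j : Fin n, ∑ b : Bool, (if b && x j then (-1 : ℝ) else 1) := by
    unfold chi
    rw [Finset.prod_univ_sum, Fintype.piFinset_univ]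
  rw [h]
  split_ifs with hx
  · subst hx
    simp [zero]
  · obtain ⟨j, hj⟩ : ∃ j, x j = true := by
      by_contra hcon
      push Not at hcon
      apply hx
      funext j
      simpa [zero] using hcon j
    refine Finset.prod_eq_zero (Finset.mem_univ j) ?_
    rw [hj]
    simp

lemma add_eq_zero {n : ℕ} (x y : Fin n → Bool) : add x y = zero ↔ x = y := by
  unfold add zero
  constructor
  · intro h
    funext j
    have := congrFun h j
    simpa using this
  · rintro rfl
    funext j
    simp

lemma wt_add {n : ℕ} (x y : Fin n → Bool) : wt (add x y) = hammingDist x y := by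
  unfold wt add hammingDist
  congr 1
  ext j
  simp [bne_iff_ne]

/-- the Krawtchouk sum -/
noncomputable def K {n : ℕ} (i : ℕ) (s : Fin n → Bool) : ℝ :=
  ∑ x ∈ univ.filter (fun x : Fin n → Bool => wt x = i), chi s x

/-- generating polynomial -/
noncomputable def gp (n w : ℕ) : ℝ[X] := (1 - X) ^ w * (1 + X) ^ (n - w)

/-- Krawtchouk polynomial -/
noncomputable def kr (n i w : ℕ) : ℝ := (gp n w).coeff i

lemma gen {n : ℕ} (s : Fin n → Bool) :
    ∑ x : Fin n → Bool, C (chi s x) * X ^ (wt x) = gp n (wt s) := by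
  have h1 : ∀ x : Fin n → Bool, C (chi s x) * X ^ (wt x)
      = ∏ j : Fin n, (if x j then C (if s j then (-1 : ℝ) else 1) * X else (1 : ℝ[X])) := by
    intro x
    have hw : wt x = ∑ j : Fin n, if x j = true then 1 else 0 := by
      unfold wt
      rw [Finset.card_filter]
    unfold chi
    rw [hw, Finset.prod_pow_eq_pow_sum .. |>.symm, map_prod, ← Finset.prod_mul_distrib]
    refine Finset.prod_congr rfl fun j _ => ?_
    cases s j <;> cases x j <;> simp
  rw [Finset.sum_congr rfl fun x _ => h1 x]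
  have h2 : ∑ x : Fin n → Bool, ∏ j : Fin n,
      (if x j then C (if s j then (-1 : ℝ) else 1) * X else (1 : ℝ[X]))
      = ∏ j : Fin n, ∑ b : Bool, (if b then C (if s j then (-1 : ℝ) else 1) * X else (1 : ℝ[X])) := by
    rw [Finset.prod_univ_sum, Fintype.piFinset_univ]
  rw [h2]
  have h3 : ∀ j : Fin n, ∑ b : Bool, (if b then C (if s j then (-1 : ℝ) else 1) * X else (1 : ℝ[X]))
      = if s j = true then (1 - X) else (1 + X) := by
    intro j
    rw [Fintype.sum_bool]
    cases s j <;> simp <;> ring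
  rw [Finset.prod_congr rfl fun j _ => h3 j, Finset.prod_ite, Finset.prod_const, Finset.prod_const]
  unfold gp wt
  congr 2
  have := Finset.card_filter_add_card_filter_not (s := (univ : Finset (Fin n))) (fun j => s j = true)
  rw [Finset.card_univ, Fintype.card_fin] at this
  omega

lemma K_eq {n : ℕ} (i : ℕ) (s : Fin n → Bool) : K i s = kr n i (wt s) := by
  unfold kr K
  rw [← gen, finsetSum_coeff]
  simp only [coeff_C_mul, coeff_X_pow]
  rw [Finset.sum_filter]
  refine Finset.sum_congr rfl fun x _ => ?_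
  by_cases h : wt x = i
  · simp [h]
  · rw [if_neg h, if_neg (fun h' => h h'.symm), mul_zero]

/-- the quadratic form of the distance -/
noncomputable def pairs {n : ℕ} (i : ℕ) (U : Finset (Fin n → Bool)) : ℕ :=
  ((U ×ˢ U).filter (fun p => hammingDist p.1 p.2 = i)).card

/-- Fourier coefficient of the indicator -/
noncomputable def hat {n : ℕ} (U : Finset (Fin n → Bool)) (s : Fin n → Bool) : ℝ := ∑ x ∈ U, chi s x

lemma add_assoc' {n : ℕ} (x y z : Fin n → Bool) : add (add x y) z = add x (add y z) := by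
  funext j
  simp [add]

lemma hat_sq {n : ℕ} (U : Finset (Fin n → Bool)) (s : Fin n → Bool) :
    hat U s ^ 2 = ∑ p ∈ U ×ˢ U, chi s (add p.1 p.2) := by
  unfold hat
  rw [sq, Finset.sum_mul_sum, Finset.sum_product]
  refine Finset.sum_congr rfl fun x _ => Finset.sum_congr rfl fun y _ => ?_
  rw [chi_add]

lemma sum_hat_sq {n : ℕ} (U : Finset (Fin n → Bool)) : ∑ s, hat U s ^ 2 = 2 ^ n * U.card := by
  simp only [hat_sq]
  rw [Finset.sum_comm]
  simp only [sum_chi, add_eq_zero]
  rw [Finset.sum_product]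
  simp only [Finset.sum_ite_eq]
  rw [Finset.sum_congr rfl (g := fun _ => (2 : ℝ) ^ n) fun x hx => by rw [if_pos hx]]
  rw [Finset.sum_const, nsmul_eq_mul, mul_comm]

lemma sum_K_hat {n : ℕ} (i : ℕ) (U : Finset (Fin n → Bool)) :
    ∑ s, K i s * hat U s ^ 2 = 2 ^ n * pairs i U := by
  simp only [hat_sq, K, Finset.sum_mul_sum]
  rw [Finset.sum_comm]
  have h1 : ∀ x ∈ univ.filter (fun x : Fin n → Bool => wt x = i),
      ∑ s : Fin n → Bool, ∑ p ∈ U ×ˢ U, chi s x * chi s (add p.1 p.2)
      = ∑ p ∈ U ×ˢ U, if x = add p.1 p.2 then (2 : ℝ) ^ n else 0 := by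
    intro x _
    rw [Finset.sum_comm]
    refine Finset.sum_congr rfl fun p _ => ?_
    simp only [← chi_add, sum_chi, add_eq_zero]
  rw [Finset.sum_congr rfl h1, Finset.sum_comm]
  have h2 : ∀ p ∈ U ×ˢ U, ∑ x ∈ univ.filter (fun x : Fin n → Bool => wt x = i),
      (if x = add p.1 p.2 then (2 : ℝ) ^ n else 0) = if hammingDist p.1 p.2 = i then (2 : ℝ) ^ n else 0 := by
    intro p _
    rw [Finset.sum_ite_eq']
    simp only [Finset.mem_filter, Finset.mem_univ, true_and, wt_add]
  rw [Finset.sum_congr rfl h2, ← Finset.sum_filter, Finset.sum_const, nsmul_eq_mul, mul_comm]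
  rfl

lemma card_wt (n i : ℕ) : (univ.filter (fun x : Fin n → Bool => wt x = i)).card = n.choose i := by
  have h : (univ.filter (fun x : Fin n → Bool => wt x = i)).card = (powersetCard i (univ : Finset (Fin n))).card := by
    refine Finset.card_bij (fun x _ => univ.filter (fun j => x j = true)) ?_ ?_ ?_
    · intro x hx
      rw [Finset.mem_powersetCard]
      exact ⟨Finset.subset_univ _, (Finset.mem_filter.1 hx).2⟩
    · intro x _ y _ hxy
      funext j
      have := Finset.ext_iff.1 hxy j
      simp only [Finset.mem_filter, Finset.mem_univ, true_and] at this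
      exact Bool.eq_iff_iff.2 this
    · intro T hT
      rw [Finset.mem_powersetCard] at hT
      refine ⟨fun j => decide (j ∈ T), ?_, ?_⟩
      · rw [Finset.mem_filter]
        refine ⟨Finset.mem_univ _, ?_⟩
        unfold wt
        simp [hT.2]
      · simp
  rw [h, Finset.card_powersetCard, Finset.card_univ, Fintype.card_fin]

/-- Parseval for `K` -/
lemma sum_K_sq (n i : ℕ) : ∑ s : Fin n → Bool, K i s ^ 2 = 2 ^ n * n.choose i := by
  have h := sum_hat_sq (univ.filter (fun x : Fin n → Bool => wt x = i))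
  rw [card_wt] at h
  exact h

/-- size of a Krawtchouk value -/
lemma kr_sq_le {n w : ℕ} (i : ℕ) : (n.choose w : ℝ) * kr n i w ^ 2 ≤ 2 ^ n * n.choose i := by
  rw [← sum_K_sq, ← card_wt n w, ← nsmul_eq_mul, ← Finset.sum_const]
  calc ∑ _x ∈ univ.filter (fun x : Fin n → Bool => wt x = w), kr n i w ^ 2
      = ∑ x ∈ univ.filter (fun x : Fin n → Bool => wt x = w), K i x ^ 2 := by
        refine Finset.sum_congr rfl fun x hx => ?_
        rw [K_eq, (Finset.mem_filter.1 hx).2]
    _ ≤ ∑ x, K i x ^ 2 := Finset.sum_le_sum_of_subset_of_nonneg (Finset.filter_subset _ _)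
        (fun _ _ _ => sq_nonneg _)

lemma kr_zero (n w : ℕ) : kr n 0 w = 1 := by
  unfold kr gp
  rw [Polynomial.coeff_zero_eq_eval_zero]
  simp

lemma kr_zero_right (n i : ℕ) : kr n i 0 = n.choose i := by
  unfold kr gp
  rw [pow_zero, one_mul, Nat.sub_zero, Polynomial.coeff_one_add_X_pow]

lemma kr_symm {n w : ℕ} (i : ℕ) (hi : Even i) (hw : w ≤ n) : kr n i (n - w) = kr n i w := by
  unfold kr gp
  have h : (1 - X) ^ (n - w) * (1 + X) ^ (n - (n - w)) = ((1 - X : ℝ[X]) ^ w * (1 + X) ^ (n - w)).comp (-X) := by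
    have e : n - (n - w) = w := by omega
    rw [e]
    simp only [mul_comp, pow_comp, sub_comp, add_comp, one_comp, X_comp]
    ring
  have e2 : (-X : ℝ[X]) = C (-1) * X := by simp
  rw [h, e2, Polynomial.comp_C_mul_X_coeff]
  rw [Even.neg_one_pow hi, mul_one]

/-- differential equation of the generating polynomial -/
lemma gp_deriv {n w : ℕ} (hw : w ≤ n) :
    derivative (gp n w) - X * (X * derivative (gp n w)) =
      C ((n : ℝ) - 2 * w) * gp n w - C (n : ℝ) * (X * gp n w) := by
  have h1 : ∀ m : ℕ, (1 - X : ℝ[X]) * derivative ((1 - X : ℝ[X]) ^ m) = - C (m : ℝ) * (1 - X) ^ m := by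
    intro m
    cases m with
    | zero => simp
    | succ m =>
      rw [derivative_pow_succ]
      simp only [derivative_sub, derivative_one, derivative_X, zero_sub]
      push_cast
      ring
  have h2 : ∀ m : ℕ, (1 + X : ℝ[X]) * derivative ((1 + X : ℝ[X]) ^ m) = C (m : ℝ) * (1 + X) ^ m := by
    intro m
    cases m with
    | zero => simp
    | succ m =>
      rw [derivative_pow_succ]
      simp only [derivative_add, derivative_one, derivative_X, zero_add]
      push_cast
      ring
  have h3 := h1 w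
  have h4 := h2 (n - w)
  have e : ((n - w : ℕ) : ℝ) = (n : ℝ) - w := by
    rw [Nat.cast_sub hw]
  rw [e] at h4
  unfold gp
  rw [derivative_mul]
  simp only [map_sub, map_mul, map_natCast, map_ofNat] at h3 h4 ⊢
  linear_combination (1 + X) * (1 + X) ^ (n - w) * h3 + (1 - X) * (1 - X) ^ w * h4

lemma kr_rec {n w : ℕ} (hw : w ≤ n) (i : ℕ) :
    ((i : ℝ) + 2) * kr n (i + 2) w = ((n : ℝ) - 2 * w) * kr n (i + 1) w - ((n : ℝ) - i) * kr n i w := by
  have h := congrArg (fun p : ℝ[X] => p.coeff (i + 1)) (gp_deriv hw)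
  simp only [coeff_sub, coeff_C_mul, coeff_X_mul, coeff_derivative] at h
  have h2 : (X * derivative (gp n w)).coeff i = (i : ℝ) * (gp n w).coeff i := by
    cases i with
    | zero => simp
    | succ i =>
      rw [coeff_X_mul, coeff_derivative]
      push_cast
      ring
  rw [h2] at h
  unfold kr
  push_cast at h
  linear_combination h

lemma kr_one {n w : ℕ} (hw : w ≤ n) : kr n 1 w = (n : ℝ) - 2 * w := by
  have h := congrArg (fun p : ℝ[X] => p.coeff 0) (gp_deriv hw)
  simp only [coeff_sub, coeff_derivative, mul_coeff_zero, coeff_X_zero, zero_mul,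
    mul_zero, sub_zero, coeff_C_zero] at h
  have h0 := kr_zero n w
  unfold kr at h0 ⊢
  rw [h0] at h
  push_cast at h
  linarith

/-- positivity of the Krawtchouk polynomials below the first root -/
lemma kr_pos {n w i : ℕ} (hi : 2 * i ≤ n + 1)
    (hw : 2 * √((i : ℝ) * (n - i + 1)) ≤ (n : ℝ) - 2 * w) : 0 < kr n i w := by
  have hwn : w ≤ n := by
    have h0 : (0 : ℝ) ≤ 2 * √((i : ℝ) * (n - i + 1)) := by positivity
    have h1 : (2 : ℝ) * w ≤ n := by linarith
    have h2 : 2 * w ≤ n := by exact_mod_cast h1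
    omega
  -- monotonicity of j (n - j + 1)
  have hmono : ∀ j : ℕ, j ≤ i → √((j : ℝ) * (n - j + 1)) ≤ √((i : ℝ) * (n - i + 1)) := by
    intro j hj
    apply Real.sqrt_le_sqrt
    have h1 : (j : ℝ) ≤ i := by exact_mod_cast hj
    have h2 : 2 * (i : ℝ) ≤ n + 1 := by exact_mod_cast hi
    nlinarith
  have hP : ∀ j : ℕ, j + 1 ≤ i → 0 < kr n j w ∧
      √((n : ℝ) - j) * kr n j w ≤ √((j : ℝ) + 1) * kr n (j + 1) w := by
    intro j
    induction j with
    | zero =>
      intro h
      have h1 := hmono 1 h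
      have h2 := hmono 0 (Nat.zero_le _)
      rw [kr_zero, kr_one hwn]
      refine ⟨one_pos, ?_⟩
      have e1 : ((1 : ℕ) : ℝ) * ((n : ℝ) - (1 : ℕ) + 1) = n := by push_cast; ring
      rw [e1] at h1
      simp only [Nat.cast_zero, sub_zero, mul_one, zero_add, Real.sqrt_one, one_mul]
      have h3 : 0 ≤ √((i : ℝ) * (n - i + 1)) := Real.sqrt_nonneg _
      linarith
    | succ j ih =>
      intro h
      obtain ⟨ih1, ih2⟩ := ih (by omega)
      have hn1 : (j : ℝ) + 1 ≤ n := by
        have : j + 1 ≤ n := by omega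
        exact_mod_cast this
      have hpos1 : 0 < kr n (j + 1) w := by
        have h1 : 0 < √((n : ℝ) - j) := Real.sqrt_pos.2 (by linarith)
        have h2 : 0 < √((n : ℝ) - j) * kr n j w := mul_pos h1 ih1
        have h3 : 0 < √((j : ℝ) + 1) := Real.sqrt_pos.2 (by positivity)
        exact (pos_iff_pos_of_mul_pos (lt_of_lt_of_le h2 ih2)).1 h3
      refine ⟨hpos1, ?_⟩
      have hr := kr_rec hwn j
      have hm1 := hmono (j + 1) (by omega)
      have hm2 := hmono (j + 2) (by omega)
      have e1 : (((j + 1 : ℕ) : ℝ)) * ((n : ℝ) - ((j + 1 : ℕ) : ℝ) + 1) = ((j : ℝ) + 1) * (n - j) := by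
        push_cast; ring
      have e2 : (((j + 2 : ℕ) : ℝ)) * ((n : ℝ) - ((j + 2 : ℕ) : ℝ) + 1) = ((j : ℝ) + 2) * (n - j - 1) := by
        push_cast; ring
      rw [e1, Real.sqrt_mul (by positivity)] at hm1
      rw [e2, Real.sqrt_mul (by positivity)] at hm2
      have hs : √((n : ℝ) - j) * √((n : ℝ) - j) = (n : ℝ) - j := Real.mul_self_sqrt (by linarith)
      have hs2 : √((j : ℝ) + 2) * √((j : ℝ) + 2) = (j : ℝ) + 2 := Real.mul_self_sqrt (by positivity)
      have hlow : ((n : ℝ) - j) * kr n j w ≤ √((j : ℝ) + 1) * √((n : ℝ) - j) * kr n (j + 1) w := by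
        have := mul_le_mul_of_nonneg_left ih2 (Real.sqrt_nonneg ((n : ℝ) - j))
        calc ((n : ℝ) - j) * kr n j w = √((n : ℝ) - j) * (√((n : ℝ) - j) * kr n j w) := by
              rw [← mul_assoc, hs]
          _ ≤ _ := this
          _ = _ := by ring
      have hfin : √((j : ℝ) + 2) * √((n : ℝ) - j - 1) * kr n (j + 1) w ≤ ((j : ℝ) + 2) * kr n (j + 2) w := by
        have hA : √((j : ℝ) + 1) * √((n : ℝ) - j) + √((j : ℝ) + 2) * √((n : ℝ) - j - 1) ≤ (n : ℝ) - 2 * w := by
          linarith
        have := mul_le_mul_of_nonneg_right hA hpos1.le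
        rw [hr]
        linarith
      have hs3 : 0 < √((j : ℝ) + 2) := Real.sqrt_pos.2 (by positivity)
      have e3 : (n : ℝ) - ((j + 1 : ℕ) : ℝ) = n - j - 1 := by push_cast; ring
      have e4 : ((j + 1 : ℕ) : ℝ) + 1 = (j : ℝ) + 2 := by push_cast; ring
      rw [e3, e4]
      have hfin2 : √((j : ℝ) + 2) * (√((n : ℝ) - j - 1) * kr n (j + 1) w) ≤
          √((j : ℝ) + 2) * (√((j : ℝ) + 2) * kr n (j + 1 + 1) w) := by
        calc √((j : ℝ) + 2) * (√((n : ℝ) - j - 1) * kr n (j + 1) w)
            = √((j : ℝ) + 2) * √((n : ℝ) - j - 1) * kr n (j + 1) w := by ring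
          _ ≤ ((j : ℝ) + 2) * kr n (j + 2) w := hfin
          _ = _ := by rw [← mul_assoc, hs2]
      exact le_of_mul_le_mul_left hfin2 hs3
  rcases Nat.eq_zero_or_pos i with rfl | hi0
  · rw [kr_zero]; exact one_pos
  · obtain ⟨h1, h2⟩ := hP (i - 1) (by omega)
    have e : i - 1 + 1 = i := by omega
    rw [e] at h2
    have hn1 : ((i - 1 : ℕ) : ℝ) + 1 ≤ n := by
      have : i - 1 + 1 ≤ n := by omega
      exact_mod_cast this
    have h3 : 0 < √((n : ℝ) - (i - 1 : ℕ)) := Real.sqrt_pos.2 (by linarith)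
    have h4 : 0 < √((n : ℝ) - (i - 1 : ℕ)) * kr n (i - 1) w := mul_pos h3 h1
    have h5 : 0 < √(((i - 1 : ℕ) : ℝ) + 1) := Real.sqrt_pos.2 (by positivity)
    exact (pos_iff_pos_of_mul_pos (lt_of_lt_of_le h4 h2)).1 h5

lemma choose_mono_mid {n t w : ℕ} (h1 : t ≤ w) (h2 : t + w ≤ n) : n.choose t ≤ n.choose w := by
  -- by symmetry it is enough to treat `w ≤ n / 2`
  have key : ∀ k : ℕ, ∀ t : ℕ, 2 * (t + k) ≤ n → n.choose t ≤ n.choose (t + k) := by
    intro k
    induction k with
    | zero => intro t _; simp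
    | succ k ih =>
      intro t ht
      refine (ih t (by omega)).trans ?_
      rw [← add_assoc]
      exact Nat.choose_le_succ_of_lt_half_left (by omega)
  rcases Nat.le_total (2 * w) n with h | h
  · have := key (w - t) t (by omega)
    rwa [Nat.add_sub_cancel' h1] at this
  · rw [← Nat.choose_symm (by omega : w ≤ n)]
    have := key (n - w - t) t (by omega)
    rwa [show t + (n - w - t) = n - w by omega] at this

/-- **Supersaturation**: a large set of words has almost the average number of pairs at distance `i`. -/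
theorem supersat {n i t : ℕ} (hi : 2 * i ≤ n + 1) (hev : Even i) (ht : t ≤ n)
    (hw : 2 * √((i : ℝ) * (n - i + 1)) ≤ (n : ℝ) - 2 * t) (U : Finset (Fin n → Bool)) :
    (n.choose i : ℝ) * (U.card : ℝ) ^ 2 ≤ 2 ^ n * pairs i U +
      2 ^ n * U.card * √(2 ^ n * n.choose i / n.choose t) := by
  set κ : ℝ := √(2 ^ n * n.choose i / n.choose t) with hκ
  have hκ0 : 0 ≤ κ := Real.sqrt_nonneg _
  have hbd : ∀ s : Fin n → Bool, -κ ≤ K i s := by
    intro s
    rw [K_eq]
    set w := wt s with hws
    have hwn : w ≤ n := by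
      rw [hws]
      unfold wt
      refine (Finset.card_filter_le _ _).trans ?_
      simp
    by_cases h1 : w ≤ t
    · have h2 : (w : ℝ) ≤ t := by exact_mod_cast h1
      have := kr_pos (n := n) (w := w) (i := i) hi (by linarith)
      linarith
    · by_cases h3 : n - t ≤ w
      · have h4 : n - w ≤ t := by omega
        have h5 : ((n - w : ℕ) : ℝ) ≤ t := by exact_mod_cast h4
        have := kr_pos (n := n) (w := n - w) (i := i) hi (by linarith)
        rw [kr_symm i hev hwn] at this
        linarith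
      · have h6 : n.choose t ≤ n.choose w := choose_mono_mid (by omega) (by omega)
        have h7 : (n.choose t : ℝ) ≤ n.choose w := by exact_mod_cast h6
        have h8 : (0 : ℝ) < n.choose t := by exact_mod_cast Nat.choose_pos ht
        have h9 := kr_sq_le (n := n) (w := w) i
        have h10 : kr n i w ^ 2 ≤ 2 ^ n * n.choose i / n.choose t := by
          rw [le_div_iff₀ h8]
          calc kr n i w ^ 2 * n.choose t ≤ kr n i w ^ 2 * n.choose w :=
                mul_le_mul_of_nonneg_left h7 (sq_nonneg _)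
            _ = n.choose w * kr n i w ^ 2 := mul_comm _ _
            _ ≤ _ := h9
        have h11 : |kr n i w| ≤ κ := Real.abs_le_sqrt h10
        exact (abs_le.1 h11).1
  have h1 : (K i (zero : Fin n → Bool) + κ) * hat U zero ^ 2 ≤ ∑ s, (K i s + κ) * hat U s ^ 2 :=
    Finset.single_le_sum (f := fun s => (K i s + κ) * hat U s ^ 2)
      (fun s _ => mul_nonneg (by linarith [hbd s]) (sq_nonneg _)) (Finset.mem_univ _)
  have h2 : ∑ s, (K i s + κ) * hat U s ^ 2 = 2 ^ n * pairs i U + κ * (2 ^ n * U.card) := by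
    simp only [add_mul]
    rw [Finset.sum_add_distrib, sum_K_hat, ← Finset.mul_sum, sum_hat_sq]
  have h3 : K i (zero : Fin n → Bool) = n.choose i := by
    rw [K_eq]
    have : wt (zero : Fin n → Bool) = 0 := by simp [wt, zero]
    rw [this, kr_zero_right]
  have h4 : hat U (zero : Fin n → Bool) = U.card := by
    unfold hat
    simp only [chi_comm zero, chi_zero]
    simp
  rw [h2, h3, h4] at h1
  have h5 : 0 ≤ κ * (U.card : ℝ) ^ 2 := by positivity
  linarith

end Pool.Agent.W306.GV
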