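import Pool.Agent.W306.GV.Random

/-!
# Codes in random subsets of the Hamming cube: lower bound
-/

set_option autoImplicit false

namespace Pool.Agent.W306.GV

open Finset Filter Topology

/-- ordered pairs of distinct words at distance less than `d` -/
def close (n d : ℕ) : Finset ((Fin n → Bool) × (Fin n → Bool)) :=
  univ.filter (fun p => p.1 ≠ p.2 ∧ hammingDist p.1 p.2 < d)

lemma card_dist (n k : ℕ) (x : Fin n → Bool) :
    (univ.filter (fun y : Fin n → Bool => hammingDist x y = k)).card = n.choose k := by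
  rw [← card_wt n k]
  refine Finset.card_bij (fun y _ => add x y) ?_ ?_ ?_
  · intro y hy
    rw [Finset.mem_filter] at hy ⊢
    exact ⟨Finset.mem_univ _, by rw [wt_add]; exact hy.2⟩
  · intro y _ z _ h
    have h' : add x y = add x z := h
    have h2 : add x (add x y) = add x (add x z) := by rw [h']
    rw [← add_assoc', ← add_assoc', (add_eq_zero x x).2 rfl] at h2
    have h3 : ∀ u : Fin n → Bool, add zero u = u := by
      intro u
      funext j
      simp [add, zero]
    rwa [h3, h3] at h2
  · intro z hz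
    rw [Finset.mem_filter] at hz
    refine ⟨add x z, ?_, ?_⟩
    · rw [Finset.mem_filter]
      refine ⟨Finset.mem_univ _, ?_⟩
      rw [← wt_add, ← add_assoc', (add_eq_zero x x).2 rfl]
      have h3 : add zero z = z := by
        funext j
        simp [add, zero]
      rw [h3]
      exact hz.2
    · show add x (add x z) = z
      rw [← add_assoc', (add_eq_zero x x).2 rfl]
      funext j
      simp [add, zero]

lemma card_close_le (n d : ℕ) : (close n d).card ≤ 2 ^ n * ∑ k ∈ range d, n.choose k := by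
  have h1 : close n d ⊆ (univ : Finset ((Fin n → Bool) × (Fin n → Bool))).filter
      (fun p => hammingDist p.1 p.2 < d) := by
    intro p hp
    unfold close at hp
    rw [Finset.mem_filter] at hp ⊢
    exact ⟨hp.1, hp.2.2⟩
  refine (Finset.card_le_card h1).trans ?_
  rw [Finset.card_filter, ← Finset.univ_product_univ, Finset.sum_product]
  have h2 : ∀ x : Fin n → Bool, ∑ y : Fin n → Bool, (if hammingDist x y < d then 1 else 0) ≤
      ∑ k ∈ range d, n.choose k := by
    intro x
    rw [← Finset.card_filter]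
    have h3 : univ.filter (fun y : Fin n → Bool => hammingDist x y < d) ⊆
        (range d).biUnion (fun k => univ.filter (fun y : Fin n → Bool => hammingDist x y = k)) := by
      intro y hy
      rw [Finset.mem_filter] at hy
      rw [Finset.mem_biUnion]
      exact ⟨_, Finset.mem_range.2 hy.2, Finset.mem_filter.2 ⟨Finset.mem_univ _, rfl⟩⟩
    refine (Finset.card_le_card h3).trans (Finset.card_biUnion_le.trans ?_)
    refine Finset.sum_le_sum fun k _ => ?_
    rw [card_dist]
  refine (Finset.sum_le_sum fun x _ => h2 x).trans ?_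
  rw [Finset.sum_const, smul_eq_mul, Finset.card_univ]
  simp

/-- a set with few close pairs contains a large code -/
lemma largest_of_few {n d : ℕ} (T : Finset (Fin n → Bool))
    (h : 2 * ((close n d).filter (fun p => p.1 ∈ T ∧ p.2 ∈ T)).card ≤ T.card) :
    T.card ≤ 2 * largest T d := by
  set C := T.filter (fun x => ∀ y ∈ T, x ≠ y → d ≤ hammingDist x y) with hC
  have h1 : C.card ≤ largest T d := by
    apply le_largest (Finset.filter_subset _ _)
    intro x hx y hy hxy
    rw [Finset.mem_filter] at hx hy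
    exact hx.2 y hy.1 hxy
  have h2 : (T \ C).card ≤ ((close n d).filter (fun p => p.1 ∈ T ∧ p.2 ∈ T)).card := by
    have : T \ C ⊆ ((close n d).filter (fun p => p.1 ∈ T ∧ p.2 ∈ T)).image Prod.fst := by
      intro x hx
      rw [Finset.mem_sdiff, hC, Finset.mem_filter] at hx
      have h3 : ∃ y ∈ T, x ≠ y ∧ hammingDist x y < d := by
        by_contra hcon
        push Not at hcon
        exact hx.2 ⟨hx.1, hcon⟩
      obtain ⟨y, hy, hxy, hd⟩ := h3
      rw [Finset.mem_image]
      refine ⟨(x, y), ?_, rfl⟩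
      rw [Finset.mem_filter]
      refine ⟨?_, hx.1, hy⟩
      unfold close
      rw [Finset.mem_filter]
      exact ⟨Finset.mem_univ _, hxy, hd⟩
    exact (Finset.card_le_card this).trans Finset.card_image_le
  have h3 : C.card + (T \ C).card = T.card := by
    rw [add_comm]
    exact Finset.card_sdiff_add_card_eq_card (Finset.filter_subset _ _)
  omega

/-- **lower bound**: in most subsets of size `m ≥ m'` there is a code with at least `m' / 2` words. -/
theorem lower_fin {n d m m' : ℕ} (h2 : 2 ≤ m') (hmm : m' ≤ m) (hm : m ≤ 2 ^ n) :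
    (((powersetCard m (univ : Finset (Fin n → Bool))).filter (fun S => 2 * largest S d < m')).card : ℝ)
      ≤ (2 * m' * ∑ k ∈ range d, (n.choose k : ℝ)) / 2 ^ n * ((2 ^ n : ℕ).choose m : ℝ) := by
  have hcardX : Fintype.card (Fin n → Bool) = 2 ^ n := by simp
  set B : Finset (Finset (Fin n → Bool)) := (powersetCard m' (univ : Finset (Fin n → Bool))).filter
    (fun T => m' < 2 * ((close n d).filter (fun p => p.1 ∈ T ∧ p.2 ∈ T)).card) with hB
  have ht := transfer (X := Fin n → Bool) B (m' := m') (m := m)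
    (fun T hT => by
      rw [hB, Finset.mem_filter, Finset.mem_powersetCard] at hT
      exact hT.1.2) hmm (by rw [hcardX]; exact hm)
  rw [hcardX] at ht
  have hav := average_pairs (X := Fin n → Bool) (close n d)
    (fun p hp => by
      unfold close at hp
      rw [Finset.mem_filter] at hp
      exact hp.2.1) h2 (by rw [hcardX]; exact hmm.trans hm)
  rw [hcardX] at hav
  have hN0 : (0 : ℝ) < ((2 ^ n : ℕ) : ℝ) := by positivity
  have hm0 : (0 : ℝ) < m' := by
    have : 0 < m' := by omega
    exact_mod_cast this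
  have hmark : (B.card : ℝ) * m' ≤ 2 * ∑ T ∈ powersetCard m' (univ : Finset (Fin n → Bool)),
      (((close n d).filter (fun p => p.1 ∈ T ∧ p.2 ∈ T)).card : ℝ) := by
    rw [Finset.mul_sum, ← nsmul_eq_mul, ← Finset.sum_const]
    refine (Finset.sum_le_sum (f := fun _ => (m' : ℝ)) (g := fun T =>
      2 * (((close n d).filter (fun p => p.1 ∈ T ∧ p.2 ∈ T)).card : ℝ)) (s := B) ?_).trans
      (Finset.sum_le_sum_of_subset_of_nonneg (Finset.filter_subset _ _) fun _ _ _ => by positivity)
    intro T hT
    rw [hB, Finset.mem_filter] at hT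
    exact_mod_cast hT.2.le
  have hcl : ((close n d).card : ℝ) ≤ ((2 ^ n : ℕ) : ℝ) * ∑ k ∈ range d, (n.choose k : ℝ) := by
    have := card_close_le n d
    exact_mod_cast this
  set V : ℝ := ∑ k ∈ range d, (n.choose k : ℝ) with hV
  have hV0 : 0 ≤ V := Finset.sum_nonneg fun _ _ => Nat.cast_nonneg _
  -- size of B
  have hBcard : (B.card : ℝ) ≤ 2 * m' * V / 2 ^ n * ((2 ^ n : ℕ).choose m' : ℝ) := by
    have e1 : (B.card : ℝ) * m' * ((2 ^ n : ℕ) : ℝ) ^ 2 ≤
        2 * (((2 ^ n : ℕ) : ℝ) * V * (((2 ^ n : ℕ).choose m' : ℝ) * (m' : ℝ) ^ 2)) := by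
      calc (B.card : ℝ) * m' * ((2 ^ n : ℕ) : ℝ) ^ 2
          ≤ (2 * ∑ T ∈ powersetCard m' (univ : Finset (Fin n → Bool)),
              (((close n d).filter (fun p => p.1 ∈ T ∧ p.2 ∈ T)).card : ℝ)) * ((2 ^ n : ℕ) : ℝ) ^ 2 :=
            mul_le_mul_of_nonneg_right hmark (by positivity)
        _ = 2 * ((∑ T ∈ powersetCard m' (univ : Finset (Fin n → Bool)),
              (((close n d).filter (fun p => p.1 ∈ T ∧ p.2 ∈ T)).card : ℝ)) * ((2 ^ n : ℕ) : ℝ) ^ 2) := by ring
        _ ≤ 2 * ((close n d).card * (((2 ^ n : ℕ).choose m' : ℝ) * (m' : ℝ) ^ 2)) :=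
            mul_le_mul_of_nonneg_left hav (by norm_num)
        _ ≤ _ := by gcongr
    have e2 : (0 : ℝ) < m' * ((2 ^ n : ℕ) : ℝ) ^ 2 := by positivity
    refine le_of_mul_le_mul_right ?_ e2
    calc (B.card : ℝ) * (m' * ((2 ^ n : ℕ) : ℝ) ^ 2) = (B.card : ℝ) * m' * ((2 ^ n : ℕ) : ℝ) ^ 2 := by ring
      _ ≤ _ := e1
      _ = _ := by
          push_cast
          field_simp
  have hchpos : (0 : ℝ) < ((2 ^ n : ℕ).choose m' : ℝ) := by
    exact_mod_cast Nat.choose_pos (hmm.trans hm)
  have hsub : (((powersetCard m (univ : Finset (Fin n → Bool))).filter (fun S => 2 * largest S d < m')).card : ℝ)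
      ≤ (((powersetCard m (univ : Finset (Fin n → Bool))).filter
        (fun S => ∀ T ⊆ S, T.card = m' → T ∈ B)).card : ℝ) := by
    have : (powersetCard m (univ : Finset (Fin n → Bool))).filter (fun S => 2 * largest S d < m') ⊆
        (powersetCard m (univ : Finset (Fin n → Bool))).filter
        (fun S => ∀ T ⊆ S, T.card = m' → T ∈ B) := by
      intro S hS
      rw [Finset.mem_filter] at hS ⊢
      refine ⟨hS.1, fun T hTS hT => ?_⟩
      rw [hB, Finset.mem_filter, Finset.mem_powersetCard]
      refine ⟨⟨Finset.subset_univ _, hT⟩, ?_⟩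
      by_contra hcon
      push Not at hcon
      have h3 := largest_of_few (d := d) T (by rw [hT]; exact hcon)
      obtain ⟨C, hC1, hC2, hC3⟩ := exists_largest T d
      have h4 := le_largest (hC1.trans hTS) hC2
      omega
    exact_mod_cast Finset.card_le_card this
  refine hsub.trans ?_
  refine le_of_mul_le_mul_right ?_ hchpos
  refine ht.trans ?_
  calc (B.card : ℝ) * ((2 ^ n : ℕ).choose m : ℝ)
      ≤ (2 * m' * V / 2 ^ n * ((2 ^ n : ℕ).choose m' : ℝ)) * ((2 ^ n : ℕ).choose m : ℝ) :=
        mul_le_mul_of_nonneg_right hBcard (by positivity)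
    _ = _ := by ring

/-- volume of the ball -/
lemma ball_le {δ : ℝ} (h0 : 0 < δ) (h1 : δ < 1 / 2) (n : ℕ) :
    ∑ k ∈ range ⌈δ * n⌉₊, (n.choose k : ℝ) ≤ (n + 1) * Real.exp (Real.binEntropy δ * n) := by
  have h2 : ∀ k ∈ range ⌈δ * n⌉₊, (n.choose k : ℝ) ≤ Real.exp (Real.binEntropy δ * n) := by
    intro k hk
    rw [Finset.mem_range, Nat.lt_ceil] at hk
    exact choose_upper h0 h1 n k hk.le
  refine (Finset.sum_le_sum h2).trans ?_
  rw [Finset.sum_const, Finset.card_range, nsmul_eq_mul]
  refine mul_le_mul_of_nonneg_right ?_ (Real.exp_pos _).le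
  have h3 : ⌈δ * n⌉₊ ≤ n := by
    rw [Nat.ceil_le]
    have : (0 : ℝ) ≤ n := Nat.cast_nonneg _
    nlinarith
  have h4 : ((⌈δ * n⌉₊ : ℕ) : ℝ) ≤ n := by exact_mod_cast h3
  linarith

end Pool.Agent.W306.GV
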