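import Mathlib

/-!
# Random subsets of given size of a finite set: counting lemmas
-/

set_option autoImplicit false

namespace Pool.Agent.W306.GV

open Finset

section
variable {X : Type} [Fintype X] [DecidableEq X]

/-- number of the `m`-subsets containing a given set -/
lemma card_super (C : Finset X) {m : ℕ} (hm : C.card ≤ m) :
    ((powersetCard m (univ : Finset X)).filter (fun S => C ⊆ S)).card =
      (Fintype.card X - C.card).choose (m - C.card) := by
  have h : ((powersetCard m (univ : Finset X)).filter (fun S => C ⊆ S)).card =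
      (powersetCard (m - C.card) (univ \ C)).card := by
    refine Finset.card_bij (fun S _ => S \ C) ?_ ?_ ?_
    · intro S hS
      rw [Finset.mem_filter, Finset.mem_powersetCard] at hS
      rw [Finset.mem_powersetCard]
      refine ⟨Finset.sdiff_subset_sdiff (Finset.subset_univ _) (Finset.Subset.refl _), ?_⟩
      rw [Finset.card_sdiff_of_subset hS.2, hS.1.2]
    · intro S hS T hT h
      rw [Finset.mem_filter] at hS hT
      have h1 : S \ C ∪ C = S := Finset.sdiff_union_of_subset hS.2
      have h2 : T \ C ∪ C = T := Finset.sdiff_union_of_subset hT.2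
      have h' : S \ C = T \ C := h
      rw [← h1, ← h2, h']
    · intro R hR
      rw [Finset.mem_powersetCard] at hR
      have hd : Disjoint R C := by
        rw [Finset.disjoint_left]
        intro x hx hx2
        exact (Finset.mem_sdiff.1 (hR.1 hx)).2 hx2
      refine ⟨R ∪ C, ?_, ?_⟩
      · rw [Finset.mem_filter, Finset.mem_powersetCard]
        refine ⟨⟨Finset.subset_univ _, ?_⟩, Finset.subset_union_right⟩
        rw [Finset.card_union_of_disjoint hd, hR.2]
        omega
      · exact Finset.union_sdiff_cancel_right hd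
  rw [h, Finset.card_powersetCard, Finset.card_univ_sdiff]

lemma choose_ratio {m N M : ℕ} (h1 : m ≤ N) : m.choose M * N ^ M ≤ N.choose M * m ^ M := by
  have h : m.descFactorial M * N ^ M ≤ N.descFactorial M * m ^ M := by
    induction M with
    | zero => simp
    | succ M ih =>
      rw [Nat.descFactorial_succ, Nat.descFactorial_succ, pow_succ, pow_succ]
      have h2 : (m - M) * N ≤ (N - M) * m := by
        rcases Nat.le_total m M with h3 | h3
        · rw [Nat.sub_eq_zero_of_le h3, zero_mul]
          exact Nat.zero_le _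
        · obtain ⟨a, rfl⟩ := Nat.exists_eq_add_of_le h3
          obtain ⟨b, rfl⟩ := Nat.exists_eq_add_of_le h1
          have e1 : M + a - M = a := by omega
          have e2 : M + a + b - M = a + b := by omega
          rw [e1, e2]
          nlinarith
      calc (m - M) * m.descFactorial M * (N ^ M * N)
          = ((m - M) * N) * (m.descFactorial M * N ^ M) := by ring
        _ ≤ ((N - M) * m) * (N.descFactorial M * m ^ M) := Nat.mul_le_mul h2 ih
        _ = _ := by ring
  rw [Nat.descFactorial_eq_factorial_mul_choose, Nat.descFactorial_eq_factorial_mul_choose] at h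
  have h2 : M.factorial * (m.choose M * N ^ M) ≤ M.factorial * (N.choose M * m ^ M) := by
    calc M.factorial * (m.choose M * N ^ M) = M.factorial * m.choose M * N ^ M := by ring
      _ ≤ M.factorial * N.choose M * m ^ M := h
      _ = _ := by ring
  exact Nat.le_of_mul_le_mul_left h2 (Nat.factorial_pos _)

lemma choose_super {m N M : ℕ} (h1 : m ≤ N) (h2 : M ≤ m) :
    (N - M).choose (m - M) * N ^ M ≤ N.choose m * m ^ M := by
  have h3 := Nat.choose_mul (n := N) h2
  have h4 := choose_ratio (M := M) h1
  have h5 : 0 < N.choose M := Nat.choose_pos (h2.trans h1)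
  refine Nat.le_of_mul_le_mul_left ?_ h5
  calc N.choose M * ((N - M).choose (m - M) * N ^ M) = (N.choose M * (N - M).choose (m - M)) * N ^ M := by ring
    _ = N.choose m * (m.choose M * N ^ M) := by rw [← h3]; ring
    _ ≤ N.choose m * (N.choose M * m ^ M) := Nat.mul_le_mul_left _ h4
    _ = _ := by ring

/-- union bound -/
lemma union_bound (F : Finset (Finset X)) {M m : ℕ} (hF : ∀ C ∈ F, C.card = M) (hMm : M ≤ m)
    (hm : m ≤ Fintype.card X) :
    (((powersetCard m (univ : Finset X)).filter (fun S => ∃ C ∈ F, C ⊆ S)).card : ℝ) *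
      (Fintype.card X : ℝ) ^ M ≤ F.card * (((Fintype.card X).choose m : ℝ) * (m : ℝ) ^ M) := by
  have h1 : (powersetCard m (univ : Finset X)).filter (fun S => ∃ C ∈ F, C ⊆ S) ⊆
      F.biUnion (fun C => (powersetCard m (univ : Finset X)).filter (fun S => C ⊆ S)) := by
    intro S hS
    rw [Finset.mem_filter] at hS
    obtain ⟨C, hC, hCS⟩ := hS.2
    rw [Finset.mem_biUnion]
    exact ⟨C, hC, Finset.mem_filter.2 ⟨hS.1, hCS⟩⟩
  have h2 : ((powersetCard m (univ : Finset X)).filter (fun S => ∃ C ∈ F, C ⊆ S)).card ≤
      F.card * (Fintype.card X - M).choose (m - M) := by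
    refine (Finset.card_le_card h1).trans (Finset.card_biUnion_le.trans ?_)
    rw [← smul_eq_mul, ← Finset.sum_const]
    refine Finset.sum_le_sum fun C hC => ?_
    rw [card_super C (by rw [hF C hC]; exact hMm), hF C hC]
  have h3 := choose_super hm hMm
  have h4 : ((powersetCard m (univ : Finset X)).filter (fun S => ∃ C ∈ F, C ⊆ S)).card *
      (Fintype.card X) ^ M ≤ F.card * ((Fintype.card X).choose m * m ^ M) := by
    calc _ ≤ F.card * (Fintype.card X - M).choose (m - M) * (Fintype.card X) ^ M :=
          Nat.mul_le_mul_right _ h2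
      _ = F.card * ((Fintype.card X - M).choose (m - M) * (Fintype.card X) ^ M) := by ring
      _ ≤ _ := Nat.mul_le_mul_left _ h3
  exact_mod_cast h4

/-- proportion transfer from subsets to supersets -/
lemma transfer (B : Finset (Finset X)) {m' m : ℕ} (hB : ∀ T ∈ B, T.card = m') (hmm : m' ≤ m)
    (hm : m ≤ Fintype.card X) :
    (((powersetCard m (univ : Finset X)).filter (fun S => ∀ T ⊆ S, T.card = m' → T ∈ B)).card : ℝ) *
      ((Fintype.card X).choose m' : ℝ) ≤ B.card * ((Fintype.card X).choose m : ℝ) := by
  set A := (powersetCard m (univ : Finset X)).filter (fun S => ∀ T ⊆ S, T.card = m' → T ∈ B) with hA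
  have h1 : A.card * m.choose m' ≤ B.card * (Fintype.card X - m').choose (m - m') := by
    have e1 : A.card * m.choose m' = ∑ S ∈ A, (powersetCard m' S).card := by
      rw [← smul_eq_mul, ← Finset.sum_const]
      refine Finset.sum_congr rfl fun S hS => ?_
      rw [hA, Finset.mem_filter, Finset.mem_powersetCard] at hS
      rw [Finset.card_powersetCard, hS.1.2]
    have e2 : B.card * (Fintype.card X - m').choose (m - m') =
        ∑ T ∈ B, ((powersetCard m (univ : Finset X)).filter (fun S => T ⊆ S)).card := by
      rw [← smul_eq_mul, ← Finset.sum_const]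
      refine Finset.sum_congr rfl fun T hT => ?_
      rw [card_super T (by rw [hB T hT]; exact hmm), hB T hT]
    rw [e1, e2]
    have e3 : ∀ S ∈ A, (powersetCard m' S).card ≤ ∑ T ∈ B, if T ⊆ S then 1 else 0 := by
      intro S hS
      rw [← Finset.card_filter]
      refine Finset.card_le_card fun T hT => ?_
      rw [Finset.mem_powersetCard] at hT
      rw [hA, Finset.mem_filter] at hS
      exact Finset.mem_filter.2 ⟨hS.2 T hT.1 hT.2, hT.1⟩
    refine (Finset.sum_le_sum e3).trans ?_
    rw [Finset.sum_comm]
    refine Finset.sum_le_sum fun T _ => ?_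
    rw [← Finset.card_filter]
    refine Finset.card_le_card fun S hS => ?_
    rw [Finset.mem_filter] at hS ⊢
    rw [hA, Finset.mem_filter] at hS
    exact ⟨hS.1.1, hS.2⟩
  have h2 := Nat.choose_mul (n := Fintype.card X) hmm
  have h3 : 0 < m.choose m' := Nat.choose_pos hmm
  have h4 : A.card * (Fintype.card X).choose m' ≤ B.card * (Fintype.card X).choose m := by
    refine Nat.le_of_mul_le_mul_left ?_ h3
    calc m.choose m' * (A.card * (Fintype.card X).choose m')
        = (A.card * m.choose m') * (Fintype.card X).choose m' := by ring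
      _ ≤ (B.card * (Fintype.card X - m').choose (m - m')) * (Fintype.card X).choose m' :=
          Nat.mul_le_mul_right _ h1
      _ = B.card * ((Fintype.card X).choose m' * (Fintype.card X - m').choose (m - m')) := by ring
      _ = B.card * ((Fintype.card X).choose m * m.choose m') := by rw [h2]
      _ = _ := by ring
  exact_mod_cast h4

/-- average number of marked pairs in an `m`-subset -/
lemma average_pairs (E : Finset (X × X)) (hE : ∀ p ∈ E, p.1 ≠ p.2) {m : ℕ} (hm2 : 2 ≤ m)
    (hm : m ≤ Fintype.card X) :
    (∑ T ∈ powersetCard m (univ : Finset X), ((E.filter (fun p => p.1 ∈ T ∧ p.2 ∈ T)).card : ℝ)) *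
      (Fintype.card X : ℝ) ^ 2 ≤ E.card * (((Fintype.card X).choose m : ℝ) * (m : ℝ) ^ 2) := by
  have h1 : (∑ T ∈ powersetCard m (univ : Finset X), (E.filter (fun p => p.1 ∈ T ∧ p.2 ∈ T)).card)
      = E.card * (Fintype.card X - 2).choose (m - 2) := by
    simp only [Finset.card_filter]
    rw [Finset.sum_comm, ← smul_eq_mul, ← Finset.sum_const]
    refine Finset.sum_congr rfl fun p hp => ?_
    rw [← Finset.card_filter]
    have hc : ({p.1, p.2} : Finset X).card = 2 := Finset.card_pair (hE p hp)
    rw [← hc, ← card_super ({p.1, p.2} : Finset X) (by rw [hc]; exact hm2)]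
    congr 1
    ext S
    simp only [Finset.mem_filter, Finset.insert_subset_iff, Finset.singleton_subset_iff]
  have h3 := choose_super hm hm2
  have h4 : (∑ T ∈ powersetCard m (univ : Finset X), (E.filter (fun p => p.1 ∈ T ∧ p.2 ∈ T)).card) *
      (Fintype.card X) ^ 2 ≤ E.card * ((Fintype.card X).choose m * m ^ 2) := by
    rw [h1, mul_assoc]
    exact Nat.mul_le_mul_left _ h3
  exact_mod_cast h4

end

end Pool.Agent.W306.GV
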