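import Pool.Agent.W306.GV.Asym
import Pool.Agent.W306.GV.Sub

/-!
# Codes in random subsets of the Hamming cube
-/

set_option autoImplicit false

namespace Pool.Agent.W306.GV

open Finset Filter Topology

/-- the largest size of a code of minimum distance at least `d` contained in `S` -/
def largest {n : ℕ} (S : Finset (Fin n → Bool)) (d : ℕ) : ℕ :=
  (S.powerset.filter (fun C => ∀ x ∈ C, ∀ y ∈ C, x ≠ y → d ≤ hammingDist x y)).sup Finset.card

lemma le_largest {n : ℕ} {S C : Finset (Fin n → Bool)} {d : ℕ} (h : C ⊆ S) (hC : IsCode d C) :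
    C.card ≤ largest S d :=
  Finset.le_sup (f := Finset.card) (Finset.mem_filter.2 ⟨Finset.mem_powerset.2 h, hC⟩)

lemma exists_largest {n : ℕ} (S : Finset (Fin n → Bool)) (d : ℕ) :
    ∃ C ⊆ S, IsCode d C ∧ C.card = largest S d := by
  have hne : (S.powerset.filter (fun C => ∀ x ∈ C, ∀ y ∈ C, x ≠ y → d ≤ hammingDist x y)).Nonempty :=
    ⟨∅, by simp⟩
  obtain ⟨C, hC, h⟩ := Finset.exists_mem_eq_sup _ hne Finset.card
  rw [Finset.mem_filter, Finset.mem_powerset] at hC
  exact ⟨C, hC.1, hC.2, h.symm⟩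

lemma largest_le {n : ℕ} (S : Finset (Fin n → Bool)) (d : ℕ) : largest S d ≤ S.card := by
  obtain ⟨C, h1, -, h2⟩ := exists_largest S d
  rw [← h2]
  exact Finset.card_le_card h1

lemma exists_code {n M : ℕ} {S : Finset (Fin n → Bool)} {d : ℕ} (h : M ≤ largest S d) :
    ∃ C ∈ codes n d M, C ⊆ S := by
  obtain ⟨C, h1, h2, h3⟩ := exists_largest S d
  obtain ⟨D, hD1, hD2⟩ := Finset.exists_subset_card_eq (h3 ▸ h : M ≤ C.card)
  refine ⟨D, ?_, hD1.trans h1⟩
  unfold codes
  rw [Finset.mem_filter, Finset.mem_powersetCard]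
  exact ⟨⟨Finset.subset_univ _, hD2⟩, fun x hx y hy => h2 x (hD1 hx) y (hD1 hy)⟩

lemma one_le_largest {n : ℕ} {S : Finset (Fin n → Bool)} (hS : 1 ≤ S.card) (d : ℕ) : 1 ≤ largest S d := by
  obtain ⟨x, hx⟩ := Finset.card_pos.1 hS
  have : ({x} : Finset (Fin n → Bool)).card ≤ largest S d := by
    apply le_largest
    · simpa using hx
    · intro a ha b hb hab
      rw [Finset.mem_singleton] at ha hb
      exact absurd (ha.trans hb.symm) hab
  simpa using this

/-- **upper bound**: few subsets of size `m` contain a code of size `M`. -/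
theorem upper_asym {δ ε σ : ℝ} (h0 : 0 < δ) (h1 : δ < 1 / 2) (hε : 0 < ε)
    (hσ : σ ≤ Real.log 2 - Real.binEntropy δ + cc δ) :
    ∀ᶠ n : ℕ in atTop, ∀ M m : ℕ, Real.exp ((Real.log 2 - Real.binEntropy δ + ε) * n) ≤ M →
      (m : ℝ) ≤ Real.exp (σ * n) → m ≤ 2 ^ n →
      (((powersetCard m (univ : Finset (Fin n → Bool))).filter (fun S => M ≤ largest S ⌈δ * n⌉₊)).card : ℝ)
        ≤ Real.exp (-(ε / 2 * n)) * ((2 ^ n : ℕ).choose m : ℝ) := by
  have c1 := count_asym h0 h1 (show 0 < ε / 4 by positivity)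
  have c2 := log_small (show 0 < ε / 4 by positivity)
  have c3 : ∀ᶠ n : ℕ in atTop, 12 / ε ≤ (n : ℝ) :=
    tendsto_natCast_atTop_atTop.eventually_ge_atTop _
  filter_upwards [c1, c2, c3, eventually_ge_atTop 1] with n g1 g2 g3 g4
  intro M m hM hm hm2
  obtain ⟨s0, q, hs1, hs, hq, hcount⟩ := g1
  have hn : (0 : ℝ) < n := by exact_mod_cast g4
  have hn1 : (1 : ℝ) ≤ n := by exact_mod_cast g4
  have hent : Real.binEntropy δ ≤ Real.log 2 := Real.binEntropy_le_log_two
  have hM1 : (1 : ℝ) ≤ M := le_trans (Real.one_le_exp (by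
    have : 0 ≤ Real.log 2 - Real.binEntropy δ + ε := by linarith
    positivity)) hM
  have hMn : 1 ≤ M := by exact_mod_cast hM1
  have hM0 : (0 : ℝ) < M := by linarith
  have hrhs : 0 ≤ Real.exp (-(ε / 2 * n)) * ((2 ^ n : ℕ).choose m : ℝ) := by positivity
  rcases lt_or_ge m M with hlt | hge
  · -- no such sets
    have : (powersetCard m (univ : Finset (Fin n → Bool))).filter (fun S => M ≤ largest S ⌈δ * n⌉₊) = ∅ := by
      rw [Finset.eq_empty_iff_forall_notMem]
      intro S hS
      rw [Finset.mem_filter, Finset.mem_powersetCard] at hS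
      have := largest_le S ⌈δ * n⌉₊
      omega
    rw [this, Finset.card_empty, Nat.cast_zero]
    exact hrhs
  · have hcardX : Fintype.card (Fin n → Bool) = 2 ^ n := by simp
    have hub := union_bound (X := Fin n → Bool) (codes n ⌈δ * n⌉₊ M) (M := M) (m := m)
      (fun C hC => by
        unfold codes at hC
        rw [Finset.mem_filter, Finset.mem_powersetCard] at hC
        exact hC.1.2) hge (by rw [hcardX]; exact hm2)
    rw [hcardX] at hub
    have hsub : (((powersetCard m (univ : Finset (Fin n → Bool))).filter (fun S => M ≤ largest S ⌈δ * n⌉₊)).card : ℝ)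
        ≤ (((powersetCard m (univ : Finset (Fin n → Bool))).filter
          (fun S => ∃ C ∈ codes n ⌈δ * n⌉₊ M, C ⊆ S)).card : ℝ) := by
      have : (powersetCard m (univ : Finset (Fin n → Bool))).filter (fun S => M ≤ largest S ⌈δ * n⌉₊) ⊆
          (powersetCard m (univ : Finset (Fin n → Bool))).filter
          (fun S => ∃ C ∈ codes n ⌈δ * n⌉₊ M, C ⊆ S) := by
        intro S hS
        rw [Finset.mem_filter] at hS ⊢
        exact ⟨hS.1, exists_code hS.2⟩
      exact_mod_cast Finset.card_le_card this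
    refine hsub.trans ?_
    set A : ℝ := (((powersetCard m (univ : Finset (Fin n → Bool))).filter
          (fun S => ∃ C ∈ codes n ⌈δ * n⌉₊ M, C ⊆ S)).card : ℝ) with hA
    have h2n : ((2 ^ n : ℕ) : ℝ) = Real.exp (Real.log 2 * n) := by
      push_cast
      rw [mul_comm, Real.exp_nat_mul, Real.exp_log (by norm_num)]
    have hcc := hcount M hMn
    -- the key quotient
    have hquot : Real.exp 1 * s0 / M * m ≤ Real.exp (1 - ε * (3 / 4) * n) * Real.exp (Real.log 2 * n) := by
      rw [div_mul_eq_mul_div, div_le_iff₀ hM0]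
      calc Real.exp 1 * s0 * m ≤ Real.exp 1 * Real.exp ((Real.log 2 - cc δ + ε / 4) * n) * Real.exp (σ * n) := by
            gcongr
        _ = Real.exp (1 + (Real.log 2 - cc δ + ε / 4) * n + σ * n) := by
            rw [← Real.exp_add, ← Real.exp_add]
        _ ≤ Real.exp (1 - ε * (3 / 4) * n + Real.log 2 * n + (Real.log 2 - Real.binEntropy δ + ε) * n) := by
            apply Real.exp_le_exp.2
            nlinarith
        _ = Real.exp (1 - ε * (3 / 4) * n) * Real.exp (Real.log 2 * n) *
              Real.exp ((Real.log 2 - Real.binEntropy δ + ε) * n) := by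
            rw [← Real.exp_add, ← Real.exp_add]
        _ ≤ _ := by gcongr
    have hq2 : ((2 : ℝ) ^ n + 1) ^ q ≤ Real.exp (M * (1 : ℝ)) := by
      have e1 : (2 : ℝ) ^ n + 1 ≤ Real.exp (n + 1) := by
        have e2 : (2 : ℝ) ^ n ≤ Real.exp n := by
          have h3 : (2 : ℝ) ≤ Real.exp 1 := by
            have := Real.add_one_le_exp (1 : ℝ)
            linarith
          calc (2 : ℝ) ^ n ≤ (Real.exp 1) ^ n := pow_le_pow_left₀ (by norm_num) h3 _
            _ = Real.exp n := by rw [← Real.exp_nat_mul, mul_one]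
        have e3 : (1 : ℝ) ≤ Real.exp n := Real.one_le_exp hn.le
        have e4 : (2 : ℝ) ≤ Real.exp 1 := by
          have := Real.add_one_le_exp (1 : ℝ)
          linarith
        rw [Real.exp_add]
        nlinarith [Real.exp_pos (n : ℝ)]
      calc ((2 : ℝ) ^ n + 1) ^ q ≤ (Real.exp (n + 1)) ^ q := pow_le_pow_left₀ (by positivity) e1 _
        _ = Real.exp (q * (n + 1)) := by rw [← Real.exp_nat_mul]
        _ ≤ Real.exp (M * (1 : ℝ)) := by
            apply Real.exp_le_exp.2
            have e5 : (n : ℝ) + 1 ≤ Real.exp (ε / 4 * n) := by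
              rw [← Real.log_le_iff_le_exp (by positivity)]
              exact g2
            calc (q : ℝ) * (n + 1) ≤ Real.exp ((Real.log 2 - Real.binEntropy δ + ε / 4) * n) * Real.exp (ε / 4 * n) :=
                  mul_le_mul hq e5 (by positivity) (Real.exp_pos _).le
              _ = Real.exp ((Real.log 2 - Real.binEntropy δ + ε / 4) * n + ε / 4 * n) := by rw [← Real.exp_add]
              _ ≤ Real.exp ((Real.log 2 - Real.binEntropy δ + ε) * n) := by
                  apply Real.exp_le_exp.2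
                  nlinarith
              _ ≤ M := hM
              _ = M * 1 := (mul_one _).symm
    -- conclusion
    have hN0 : (0 : ℝ) < Real.exp (Real.log 2 * n) ^ M := by positivity
    rw [h2n] at hub
    refine le_of_mul_le_mul_right ?_ hN0
    refine hub.trans ?_
    have hC0 : (0 : ℝ) ≤ ((2 ^ n : ℕ).choose m : ℝ) := by positivity
    calc ((codes n ⌈δ * n⌉₊ M).card : ℝ) * (((2 ^ n : ℕ).choose m : ℝ) * (m : ℝ) ^ M)
        ≤ (((2 : ℝ) ^ n + 1) ^ q * (Real.exp 1 * s0 / M) ^ M) * (((2 ^ n : ℕ).choose m : ℝ) * (m : ℝ) ^ M) :=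
          mul_le_mul_of_nonneg_right hcc (by positivity)
      _ = ((2 : ℝ) ^ n + 1) ^ q * (Real.exp 1 * s0 / M * m) ^ M * ((2 ^ n : ℕ).choose m : ℝ) := by
          rw [mul_pow]; ring
      _ ≤ Real.exp (M * (1 : ℝ)) * (Real.exp (1 - ε * (3 / 4) * n) * Real.exp (Real.log 2 * n)) ^ M *
            ((2 ^ n : ℕ).choose m : ℝ) := by
          gcongr
      _ = Real.exp (M * (2 - ε * (3 / 4) * n)) * ((2 ^ n : ℕ).choose m : ℝ) * Real.exp (Real.log 2 * n) ^ M := by
          rw [mul_pow, ← Real.exp_nat_mul, ← mul_assoc, ← Real.exp_add]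
          have : (M : ℝ) * 1 + M * (1 - ε * (3 / 4) * n) = M * (2 - ε * (3 / 4) * n) := by ring
          rw [this]
          ring
      _ ≤ _ := by
          refine mul_le_mul_of_nonneg_right (mul_le_mul_of_nonneg_right (Real.exp_le_exp.2 ?_) hC0) hN0.le
          rw [div_le_iff₀ hε] at g3
          have e6 : 2 - ε * (3 / 4) * n ≤ -(ε / 2 * n) := by nlinarith
          have e7 : -(ε / 2 * n) ≤ 0 := by
            have : 0 ≤ ε / 2 * n := by positivity
            linarith
          calc (M : ℝ) * (2 - ε * (3 / 4) * n) ≤ 1 * (2 - ε * (3 / 4) * n) :=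
                mul_le_mul_of_nonpos_right hM1 (e6.trans e7)
            _ = 2 - ε * (3 / 4) * n := one_mul _
            _ ≤ _ := e6

end Pool.Agent.W306.GV
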