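import Pool.Agent.W306.GV.Lower

/-!
# The number of codes on both sides of the Gilbert–Varshamov bound
-/

set_option autoImplicit false

namespace Pool.Agent.W306.GV

open Finset Filter Topology

/-- extending codes by a word -/
lemma codes_succ (n d M : ℕ) (hd : 1 ≤ d) :
    (codes n d M).card * (2 ^ n - M * ∑ k ∈ range d, n.choose k) ≤ (M + 1) * (codes n d (M + 1)).card := by
  classical
  set V := ∑ k ∈ range d, n.choose k with hV
  set far : Finset (Fin n → Bool) → Finset (Fin n → Bool) :=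
    fun C => univ.filter (fun x => ∀ c ∈ C, d ≤ hammingDist c x) with hfar
  have hfarcard : ∀ C ∈ codes n d M, 2 ^ n - M * V ≤ (far C).card := by
    intro C hC
    unfold codes at hC
    rw [Finset.mem_filter, Finset.mem_powersetCard] at hC
    have h1 : (univ : Finset (Fin n → Bool)) ⊆ far C ∪ C.biUnion (fun c =>
        univ.filter (fun x => hammingDist c x < d)) := by
      intro x _
      rw [Finset.mem_union]
      by_cases hx : ∀ c ∈ C, d ≤ hammingDist c x
      · left
        rw [hfar, Finset.mem_filter]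
        exact ⟨Finset.mem_univ _, hx⟩
      · right
        push Not at hx
        obtain ⟨c, hc, hcx⟩ := hx
        rw [Finset.mem_biUnion]
        exact ⟨c, hc, Finset.mem_filter.2 ⟨Finset.mem_univ _, hcx⟩⟩
    have h2 := Finset.card_le_card h1
    have h3 : (C.biUnion (fun c => univ.filter (fun x : Fin n → Bool => hammingDist c x < d))).card ≤ M * V := by
      refine Finset.card_biUnion_le.trans ?_
      rw [← hC.1.2, ← smul_eq_mul, ← Finset.sum_const]
      refine Finset.sum_le_sum fun c _ => ?_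
      have h4 : univ.filter (fun y : Fin n → Bool => hammingDist c y < d) ⊆
          (range d).biUnion (fun k => univ.filter (fun y : Fin n → Bool => hammingDist c y = k)) := by
        intro y hy
        rw [Finset.mem_filter] at hy
        rw [Finset.mem_biUnion]
        exact ⟨_, Finset.mem_range.2 hy.2, Finset.mem_filter.2 ⟨Finset.mem_univ _, rfl⟩⟩
      refine (Finset.card_le_card h4).trans (Finset.card_biUnion_le.trans ?_)
      refine Finset.sum_le_sum fun k _ => ?_
      rw [card_dist]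
    have h5 := Finset.card_union_le (far C) (C.biUnion (fun c =>
        univ.filter (fun x : Fin n → Bool => hammingDist c x < d)))
    have h6 : (univ : Finset (Fin n → Bool)).card = 2 ^ n := by
      rw [Finset.card_univ]
      simp
    omega
  have hleft : (codes n d M).card * (2 ^ n - M * V) ≤
      ((codes n d M).sigma (fun C => far C)).card := by
    rw [Finset.card_sigma, ← smul_eq_mul, ← Finset.sum_const]
    exact Finset.sum_le_sum hfarcard
  have hright : ((codes n d (M + 1)).sigma (fun D => D)).card = (M + 1) * (codes n d (M + 1)).card := by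
    rw [Finset.card_sigma, mul_comm, ← smul_eq_mul, ← Finset.sum_const]
    refine Finset.sum_congr rfl fun D hD => ?_
    unfold codes at hD
    rw [Finset.mem_filter, Finset.mem_powersetCard] at hD
    exact hD.1.2
  rw [← hright]
  refine hleft.trans ?_
  have hnot : ∀ C ∈ codes n d M, ∀ x ∈ far C, x ∉ C := by
    intro C _ x hx hxC
    rw [hfar, Finset.mem_filter] at hx
    have := hx.2 x hxC
    rw [hammingDist_self] at this
    omega
  refine Finset.card_le_card_of_injOn (fun p => ⟨insert p.2 p.1, p.2⟩) ?_ ?_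
  · rintro ⟨C, x⟩ hp
    rw [Finset.mem_coe, Finset.mem_sigma] at hp
    have hx := hnot C hp.1 x hp.2
    have hC := hp.1
    unfold codes at hC
    rw [Finset.mem_filter, Finset.mem_powersetCard] at hC
    have hf : ∀ c ∈ C, d ≤ hammingDist c x := by
      have := hp.2
      rw [hfar, Finset.mem_filter] at this
      exact this.2
    rw [Finset.mem_coe, Finset.mem_sigma]
    refine ⟨?_, Finset.mem_insert_self _ _⟩
    unfold codes
    rw [Finset.mem_filter, Finset.mem_powersetCard]
    refine ⟨⟨Finset.subset_univ _, ?_⟩, ?_⟩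
    · show (insert x C).card = M + 1
      rw [Finset.card_insert_of_notMem hx, hC.1.2]
    · intro a ha b hb hab
      have ha' : a ∈ insert x C := ha
      have hb' : b ∈ insert x C := hb
      rw [Finset.mem_insert] at ha' hb'
      rcases ha' with rfl | ha'
      · rcases hb' with rfl | hb'
        · exact absurd rfl hab
        · rw [hammingDist_comm]
          exact hf b hb'
      · rcases hb' with rfl | hb'
        · exact hf a ha'
        · exact hC.2 a ha' b hb' hab
  · rintro ⟨C, x⟩ hp ⟨C', x'⟩ hp' h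
    rw [Finset.mem_coe, Finset.mem_sigma] at hp hp'
    have h1 : insert x C = insert x' C' := congrArg Sigma.fst h
    have h2 : x = x' := by
      have h' : (⟨insert x C, x⟩ : (_ : Finset (Fin n → Bool)) × (Fin n → Bool)) = ⟨insert x' C', x'⟩ := h
      rw [Sigma.mk.injEq] at h'
      exact eq_of_heq h'.2
    subst h2
    have h3 : C = C' := by
      rw [← Finset.erase_insert (hnot C hp.1 x hp.2), ← Finset.erase_insert (hnot C' hp'.1 x hp'.2), h1]
    subst h3
    rfl

lemma codes_zero (n d : ℕ) : (codes n d 0).card = 1 := by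
  have : codes n d 0 = {∅} := by
    unfold codes
    rw [Finset.powersetCard_zero, Finset.filter_singleton, if_pos]
    intro x hx
    simp at hx
  rw [this, Finset.card_singleton]

/-- Gilbert count -/
theorem codes_lower (n d : ℕ) (hd : 1 ≤ d) (K M : ℕ) (hMK : M ≤ K) :
    (2 ^ n - K * ∑ k ∈ range d, n.choose k) ^ M ≤ M.factorial * (codes n d M).card := by
  induction M with
  | zero => simp [codes_zero]
  | succ M ih =>
    have h1 := codes_succ n d M hd
    have h2 := ih (by omega)
    have h3 : 2 ^ n - K * ∑ k ∈ range d, n.choose k ≤ 2 ^ n - M * ∑ k ∈ range d, n.choose k :=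
      Nat.sub_le_sub_left (Nat.mul_le_mul_right _ (by omega)) _
    calc (2 ^ n - K * ∑ k ∈ range d, n.choose k) ^ (M + 1)
        = (2 ^ n - K * ∑ k ∈ range d, n.choose k) ^ M * (2 ^ n - K * ∑ k ∈ range d, n.choose k) := pow_succ _ _
      _ ≤ (M.factorial * (codes n d M).card) * (2 ^ n - M * ∑ k ∈ range d, n.choose k) :=
          Nat.mul_le_mul h2 h3
      _ = M.factorial * ((codes n d M).card * (2 ^ n - M * ∑ k ∈ range d, n.choose k)) := by ring
      _ ≤ M.factorial * ((M + 1) * (codes n d (M + 1)).card) := Nat.mul_le_mul_left _ h1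
      _ = _ := by rw [Nat.factorial_succ]; ring

/-- the proportion of codes is at least `(1 - M V / 2^n)^M` -/
theorem prob_lower {n d M : ℕ} (hd : 1 ≤ d) (hMn : M ≤ 2 ^ n)
    (hV : (M : ℝ) * ∑ k ∈ range d, (n.choose k : ℝ) ≤ 2 ^ n) :
    (1 - (M : ℝ) * (∑ k ∈ range d, (n.choose k : ℝ)) / 2 ^ n) ^ M ≤
      ((codes n d M).card : ℝ) / ((2 ^ n : ℕ).choose M : ℝ) := by
  have h1 := codes_lower n d hd M M le_rfl
  have hV' : M * ∑ k ∈ range d, n.choose k ≤ 2 ^ n := by exact_mod_cast hV
  have h2 : ((2 : ℝ) ^ n - M * ∑ k ∈ range d, (n.choose k : ℝ)) ^ M ≤ M.factorial * (codes n d M).card := by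
    have h3 : (((2 ^ n - M * ∑ k ∈ range d, n.choose k : ℕ)) : ℝ) = (2 : ℝ) ^ n - M * ∑ k ∈ range d, (n.choose k : ℝ) := by
      rw [Nat.cast_sub hV']
      push_cast
      ring
    rw [← h3]
    exact_mod_cast h1
  have hch : (0 : ℝ) < ((2 ^ n : ℕ).choose M : ℝ) := by exact_mod_cast Nat.choose_pos hMn
  rw [le_div_iff₀ hch]
  have h4 : (M.factorial : ℝ) * ((2 ^ n : ℕ).choose M : ℝ) ≤ ((2 : ℝ) ^ n) ^ M := by
    have h5 : M.factorial * (2 ^ n).choose M ≤ (2 ^ n) ^ M := by
      rw [← Nat.descFactorial_eq_factorial_mul_choose]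
      exact Nat.descFactorial_le_pow _ _
    exact_mod_cast h5
  have hf : (0 : ℝ) < M.factorial := by exact_mod_cast Nat.factorial_pos _
  have h6 : (1 - (M : ℝ) * (∑ k ∈ range d, (n.choose k : ℝ)) / 2 ^ n) ^ M =
      ((2 : ℝ) ^ n - M * ∑ k ∈ range d, (n.choose k : ℝ)) ^ M / ((2 : ℝ) ^ n) ^ M := by
    rw [← div_pow]
    congr 1
    field_simp
  rw [h6, div_mul_eq_mul_div, div_le_iff₀ (by positivity)]
  have h7 : 0 ≤ ((2 : ℝ) ^ n - M * ∑ k ∈ range d, (n.choose k : ℝ)) ^ M := pow_nonneg (by linarith) _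
  have h8 : ((2 : ℝ) ^ n - M * ∑ k ∈ range d, (n.choose k : ℝ)) ^ M * ((2 ^ n : ℕ).choose M : ℝ) * M.factorial ≤
      (codes n d M).card * ((2 : ℝ) ^ n) ^ M * M.factorial := by
    calc ((2 : ℝ) ^ n - M * ∑ k ∈ range d, (n.choose k : ℝ)) ^ M * ((2 ^ n : ℕ).choose M : ℝ) * M.factorial
        = ((2 : ℝ) ^ n - M * ∑ k ∈ range d, (n.choose k : ℝ)) ^ M * (M.factorial * ((2 ^ n : ℕ).choose M : ℝ)) := by ring
      _ ≤ (M.factorial * (codes n d M).card) * ((2 : ℝ) ^ n) ^ M :=
          mul_le_mul h2 h4 (by positivity) (by positivity)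
      _ = _ := by ring
  exact le_of_mul_le_mul_right h8 hf

lemma pow_q_le {n q M : ℕ} {δ ε : ℝ} (hε : 0 < ε)
    (hq : (q : ℝ) ≤ Real.exp ((Real.log 2 - Real.binEntropy δ + ε / 4) * n))
    (hlog : Real.log ((n : ℝ) + 1) ≤ ε / 4 * n)
    (hM : Real.exp ((Real.log 2 - Real.binEntropy δ + ε) * n) ≤ M) :
    ((2 : ℝ) ^ n + 1) ^ q ≤ Real.exp M := by
  have hn : (0 : ℝ) ≤ n := Nat.cast_nonneg _
  have e1 : (2 : ℝ) ^ n + 1 ≤ Real.exp (n + 1) := by
    have e2 : (2 : ℝ) ^ n ≤ Real.exp n := by
      have h3 : (2 : ℝ) ≤ Real.exp 1 := by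
        have := Real.add_one_le_exp (1 : ℝ)
        linarith
      calc (2 : ℝ) ^ n ≤ (Real.exp 1) ^ n := pow_le_pow_left₀ (by norm_num) h3 _
        _ = Real.exp n := by rw [← Real.exp_nat_mul, mul_one]
    have e3 : (1 : ℝ) ≤ Real.exp n := Real.one_le_exp hn
    have e4 : (2 : ℝ) ≤ Real.exp 1 := by
      have := Real.add_one_le_exp (1 : ℝ)
      linarith
    rw [Real.exp_add]
    nlinarith [Real.exp_pos (n : ℝ)]
  calc ((2 : ℝ) ^ n + 1) ^ q ≤ (Real.exp (n + 1)) ^ q := pow_le_pow_left₀ (by positivity) e1 _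
    _ = Real.exp (q * (n + 1)) := by rw [← Real.exp_nat_mul]
    _ ≤ Real.exp M := by
        apply Real.exp_le_exp.2
        have e5 : (n : ℝ) + 1 ≤ Real.exp (ε / 4 * n) := by
          rw [← Real.log_le_iff_le_exp (by positivity)]
          exact hlog
        calc (q : ℝ) * (n + 1) ≤ Real.exp ((Real.log 2 - Real.binEntropy δ + ε / 4) * n) * Real.exp (ε / 4 * n) :=
              mul_le_mul hq e5 (by positivity) (Real.exp_pos _).le
          _ = Real.exp ((Real.log 2 - Real.binEntropy δ + ε / 4) * n + ε / 4 * n) := by rw [← Real.exp_add]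
          _ ≤ Real.exp ((Real.log 2 - Real.binEntropy δ + ε) * n) := by
              apply Real.exp_le_exp.2
              nlinarith
          _ ≤ M := hM

/-- the proportion of codes with more words than the Gilbert–Varshamov bound -/
theorem prob_upper {δ ε θ : ℝ} (h0 : 0 < δ) (h1 : δ < 1 / 2) (hε : 0 < ε) (hθ : 0 < θ) :
    ∀ᶠ n : ℕ in atTop, ∀ M : ℕ, Real.exp ((Real.log 2 - Real.binEntropy δ + θ) * n) ≤ M →
      ((codes n ⌈δ * n⌉₊ M).card : ℝ) / ((2 ^ n : ℕ).choose M : ℝ) ≤
        Real.exp (-((cc δ - ε) * n)) ^ M := by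
  set ε' := min (ε / 2) θ with hε'
  have hε'0 : 0 < ε' := lt_min (by positivity) hθ
  have c1 := count_asym h0 h1 (show 0 < ε' / 4 by positivity)
  have c2 := log_small (show 0 < ε' / 4 by positivity)
  have c3 : ∀ᶠ n : ℕ in atTop, 4 / ε ≤ (n : ℝ) :=
    tendsto_natCast_atTop_atTop.eventually_ge_atTop _
  filter_upwards [c1, c2, c3, eventually_ge_atTop 1] with n g1 g2 g3 g4
  intro M hM
  obtain ⟨s0, q, hs1, hs, hq, hcount⟩ := g1
  have hn : (0 : ℝ) < n := by exact_mod_cast g4
  have hent : Real.binEntropy δ ≤ Real.log 2 := Real.binEntropy_le_log_two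
  have hM1 : (1 : ℝ) ≤ M := le_trans (Real.one_le_exp (by
    have : 0 ≤ Real.log 2 - Real.binEntropy δ + θ := by linarith
    positivity)) hM
  have hMn : 1 ≤ M := by exact_mod_cast hM1
  have hM0 : (0 : ℝ) < M := by linarith
  rcases lt_or_ge (2 ^ n) M with hlt | hge
  · rw [Nat.choose_eq_zero_of_lt hlt, Nat.cast_zero, div_zero]
    positivity
  · have hch : (0 : ℝ) < ((2 ^ n : ℕ).choose M : ℝ) := by exact_mod_cast Nat.choose_pos hge
    have hM' : Real.exp ((Real.log 2 - Real.binEntropy δ + ε') * n) ≤ M := by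
      refine le_trans (Real.exp_le_exp.2 ?_) hM
      have : ε' ≤ θ := min_le_right _ _
      nlinarith
    have hq2 := pow_q_le hε'0 hq g2 hM'
    have hcc := hcount M hMn
    have h2n : (2 : ℝ) ^ n = Real.exp (Real.log 2 * n) := by
      rw [mul_comm, Real.exp_nat_mul, Real.exp_log (by norm_num)]
    have hchl : ((2 : ℝ) ^ n) ^ M ≤ ((2 ^ n : ℕ).choose M : ℝ) * (M : ℝ) ^ M := by
      have := choose_ratio (m := M) (N := 2 ^ n) (M := M) hge
      rw [Nat.choose_self, one_mul] at this
      exact_mod_cast this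
    rw [div_le_iff₀ hch]
    refine hcc.trans ?_
    have hMM : (0 : ℝ) < (M : ℝ) ^ M := by positivity
    refine le_of_mul_le_mul_right ?_ hMM
    have hse : Real.exp 1 * (Real.exp 1 * s0) ≤ Real.exp (-((cc δ - ε) * n)) * (2 : ℝ) ^ n := by
      calc Real.exp 1 * (Real.exp 1 * s0) ≤ Real.exp 1 * (Real.exp 1 * Real.exp ((Real.log 2 - cc δ + ε' / 4) * n)) := by
            gcongr
        _ = Real.exp (1 + (1 + (Real.log 2 - cc δ + ε' / 4) * n)) := by
            rw [← Real.exp_add, ← Real.exp_add]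
        _ ≤ Real.exp (-((cc δ - ε) * n) + Real.log 2 * n) := by
            apply Real.exp_le_exp.2
            have e1 : ε' ≤ ε / 2 := min_le_left _ _
            rw [div_le_iff₀ hε] at g3
            nlinarith
        _ = _ := by rw [Real.exp_add, h2n]
    calc ((2 : ℝ) ^ n + 1) ^ q * (Real.exp 1 * s0 / M) ^ M * (M : ℝ) ^ M
        = ((2 : ℝ) ^ n + 1) ^ q * (Real.exp 1 * s0) ^ M := by
          rw [div_pow]
          field_simp
      _ ≤ Real.exp M * (Real.exp 1 * s0) ^ M := by gcongr
      _ = (Real.exp 1 * (Real.exp 1 * s0)) ^ M := by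
          rw [mul_pow (Real.exp 1) (Real.exp 1 * s0), ← Real.exp_nat_mul, mul_one]
      _ ≤ (Real.exp (-((cc δ - ε) * n)) * (2 : ℝ) ^ n) ^ M := by gcongr
      _ = Real.exp (-((cc δ - ε) * n)) ^ M * ((2 : ℝ) ^ n) ^ M := mul_pow _ _ _
      _ ≤ Real.exp (-((cc δ - ε) * n)) ^ M * (((2 ^ n : ℕ).choose M : ℝ) * (M : ℝ) ^ M) := by gcongr
      _ = _ := by ring

end Pool.Agent.W306.GV
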